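import Mathlib
import Pool.Agent.Y1.CT.IndepDefs

/-!
# Products with all varieties: definitions
-/

set_option autoImplicit false

namespace Pool.Agent.V1168.EV

open NumberField Polynomial Pool.Agent.Y1.CT

/-- The number fields `K i` have pair flips: for any two complex embeddings `φ` of `K i` and `ψ` of
`K k` (with `i = k` or not) which are neither equal nor complex conjugate, some automorphism of the
field of complex numbers is the identity on `φ (K i)` and the complex conjugation on `ψ (K k)`. -/
def PairFlips {I : Type} (K : I → Type) [∀ i, Field (K i)] : Prop :=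
  ∀ y z : Σ i, (K i →+* ℂ), z ≠ y → z ≠ ⟨y.1, ComplexEmbedding.conjugate y.2⟩ →
    ∃ τ : ℂ ≃+* ℂ, (∀ x, τ (y.2 x) = y.2 x) ∧ ∀ x, τ (z.2 x) = ComplexEmbedding.conjugate z.2 x

/-- The slope vector of a Weil number `π` for `p ^ a`: the function `2 v (φ π) - a` on the complex
embeddings `φ`, where `v` is the valuation of the field of complex numbers with `v p = 1` which is
defined by the isomorphism `ν` with the algebraic closure of `ℚ_p`. It is zero if and only if all slopes
are `a / 2`. -/
noncomputable def slopeVector {p : ℕ} [Fact p.Prime] (ν : PadicAlgCl p ≃+* ℂ) (a : ℕ) {K : Type}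
    [Field K] (π : K) (φ : K →+* ℂ) : ℝ :=
  2 * (- Real.logb p ‖ν.symm (φ π)‖) - a

/-- The number `ρ` is not zero, and a power of it is the product of a power of a conjugate of one of
the numbers in `Ω`, or of `1`, and of a power of `p`. -/
def From (p : ℕ) (Ω : Finset ℂ) (ρ : ℂ) : Prop :=
  ρ ≠ 0 ∧ ∃ (β : ℂ) (τ : ℂ ≃+* ℂ) (m : ℕ) (n k : ℤ), (β = 1 ∨ β ∈ Ω) ∧ 0 < m ∧
    ρ ^ m = τ β ^ n * (p : ℂ) ^ k

/-- A property `P q f` of a prime power `q` and polynomials `f i` holds for all Weil numbers `π i`
(for `q = p ^ a`, any `a > 0`) in the fields `K i`, not all slopes of which are equal, whose slope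
vectors are not on the lines in `E`, and all monic polynomials `f i` whose complex roots are
conjugates of `π i`. An element `⟨i, v⟩` of `E` stands for the line generated by the function `v` in
the space of the functions on the complex embeddings of `K i`. -/
def ForAllOutside {p : ℕ} [Fact p.Prime] (ν : PadicAlgCl p ≃+* ℂ) {I : Type}
    (K : I → Type) [∀ i, Field (K i)] [∀ i, NumberField (K i)] [∀ i, IsCMField (K i)]
    (P : ℕ → (I → ℤ[X]) → Prop) (E : Finset (Σ i, ((K i →+* ℂ) → ℝ))) : Prop :=
  ∀ (a : ℕ) (π : ∀ i, K i) (f : I → ℤ[X]), 0 < a →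
    (∀ i, π i * IsCMField.complexConj (K i) (π i) = (p : K i) ^ a) →
    (∀ i, ∃ φ, slopeVector ν a (π i) φ ≠ 0) →
    (∀ e ∈ E, ¬ ∃ c : ℝ, ∀ φ, slopeVector ν a (π e.1) φ = c * e.2 φ) →
    (∀ i, IsPolyOf (π i) (f i)) → P (p ^ a) f

end Pool.Agent.V1168.EV
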