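import Mathlib
import Pool.Agent.V1168.EV.Defs
import Pool.Agent.Y1.CT.Rel
import Pool.Agent.Y1.CT.Kun
import Pool.Agent.TH170.MF.Field

/-!
# The exceptional lines
-/

set_option autoImplicit false
set_option linter.unusedSectionVars false
set_option linter.unusedVariables false

namespace Pool.Agent.V1168.EV

open NumberField Finset Module Polynomial Pool.Agent.Y1.CT Pool.Agent.TH170.MF Pool.Agent.TH170

section comb

variable {I : Type} [Fintype I] {K : I → Type} [∀ i, Field (K i)] [∀ i, NumberField (K i)]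
  [∀ i, IsCMField (K i)]

/-- The complex embeddings of all the fields. -/
abbrev Emb (K : I → Type) [∀ i, Field (K i)] : Type := Σ i, (K i →+* ℂ)

/-- The operation of an automorphism. -/
def act (σ : ℂ ≃+* ℂ) : Equiv.Perm (Emb K) where
  toFun := fun y => ⟨y.1, (σ : ℂ →+* ℂ).comp y.2⟩
  invFun := fun y => ⟨y.1, (σ.symm : ℂ →+* ℂ).comp y.2⟩
  left_inv := fun y => by
    have h1 : (σ.symm : ℂ →+* ℂ).comp ((σ : ℂ →+* ℂ).comp y.2) = y.2 := by
      ext x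
      simp
    exact Sigma.ext rfl (heq_of_eq h1)
  right_inv := fun y => by
    have h1 : (σ : ℂ →+* ℂ).comp ((σ.symm : ℂ →+* ℂ).comp y.2) = y.2 := by
      ext x
      simp
    exact Sigma.ext rfl (heq_of_eq h1)

/-- The complex conjugation on the embeddings. -/
def bar (y : Emb K) : Emb K := ⟨y.1, ComplexEmbedding.conjugate y.2⟩

theorem conj_conj' {F : Type} [Field F] (φ : F →+* ℂ) :
    ComplexEmbedding.conjugate (ComplexEmbedding.conjugate φ) = φ := by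
  ext x
  simp

theorem conj_ne' {F : Type} [Field F] [NumberField F] [IsCMField F] (φ : F →+* ℂ) :
    ComplexEmbedding.conjugate φ ≠ φ := Pool.Agent.TH170.MF.conj_ne φ

theorem bar_bar (y : Emb K) : bar (bar y) = y := by
  rcases y with ⟨i, φ⟩
  exact Sigma.ext rfl (heq_of_eq (conj_conj' φ))

theorem bar_ne (y : Emb K) : bar y ≠ y := by
  rcases y with ⟨i, φ⟩
  intro h
  have h1 : (⟨i, ComplexEmbedding.conjugate φ⟩ : Emb K) = ⟨i, φ⟩ := h
  exact conj_ne' φ (eq_of_heq (Sigma.mk.inj h1).2)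

theorem act_bar (σ : ℂ ≃+* ℂ) (y : Emb K) : act σ (bar y) = bar (act σ y) := by
  rcases y with ⟨i, φ⟩
  exact Sigma.ext rfl (heq_of_eq (QC.comp_conj σ φ))

theorem act_trans (σ τ : ℂ ≃+* ℂ) (y : Emb K) : act (σ.trans τ) y = act τ (act σ y) := by
  rcases y with ⟨i, φ⟩
  exact Sigma.ext rfl (heq_of_eq (by ext x; rfl))

theorem act_star (y : Emb K) : act (starRingAut : ℂ ≃+* ℂ) y = bar y := by
  rcases y with ⟨i, φ⟩
  exact Sigma.ext rfl (heq_of_eq (by ext x; rfl))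

/-- A function is odd. -/
def Odd' (x : Emb K → ℝ) : Prop := ∀ y, x (bar y) = - x y

/-- The stabilizer of `y₀`, as a set of permutations. -/
noncomputable def stab (y₀ : Emb K) : Finset (Equiv.Perm (Emb K)) := by
  classical
  exact Finset.univ.filter fun e => ∃ τ : ℂ ≃+* ℂ, act τ = e ∧ act τ y₀ = y₀

theorem mem_stab {y₀ : Emb K} {e : Equiv.Perm (Emb K)} :
    e ∈ stab y₀ ↔ ∃ τ : ℂ ≃+* ℂ, act τ = e ∧ act τ y₀ = y₀ := by
  unfold stab
  simp

theorem one_mem_stab (y₀ : Emb K) : (1 : Equiv.Perm (Emb K)) ∈ stab y₀ := by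
  rw [mem_stab]
  refine ⟨RingEquiv.refl ℂ, ?_, ?_⟩
  · ext1 y
    rcases y with ⟨i, φ⟩
    exact Sigma.ext rfl (heq_of_eq (by ext x; rfl))
  · rcases y₀ with ⟨i, φ⟩
    exact Sigma.ext rfl (heq_of_eq (by ext x; rfl))

theorem mul_mem_stab {y₀ : Emb K} {e e' : Equiv.Perm (Emb K)} (h : e ∈ stab y₀)
    (h' : e' ∈ stab y₀) : e * e' ∈ stab y₀ := by
  obtain ⟨τ, h1, h2⟩ := mem_stab.1 h
  obtain ⟨τ', h1', h2'⟩ := mem_stab.1 h'
  rw [mem_stab]
  refine ⟨τ'.trans τ, ?_, ?_⟩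
  · ext1 y
    rw [act_trans, Equiv.Perm.mul_apply, h1, h1']
  · rw [act_trans, h2', h2]

theorem inv_mem_stab {y₀ : Emb K} {e : Equiv.Perm (Emb K)} (h : e ∈ stab y₀) :
    e⁻¹ ∈ stab y₀ := by
  obtain ⟨τ, h1, h2⟩ := mem_stab.1 h
  have h3 : ∀ y : Emb K, act τ.symm (act τ y) = y := by
    rintro ⟨i, φ⟩
    exact Sigma.ext rfl (heq_of_eq (by ext x; exact τ.symm_apply_apply (φ x)))
  rw [mem_stab]
  refine ⟨τ.symm, ?_, ?_⟩
  · rw [eq_comm, inv_eq_iff_mul_eq_one]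
    ext1 y
    have h4 := h3 ((act τ).symm y)
    rw [Equiv.apply_symm_apply] at h4
    rw [Equiv.Perm.mul_apply, h4, ← h1, Equiv.apply_symm_apply]
    rfl
  · nth_rewrite 1 [← h2]
    exact h3 y₀

variable (hsep : PairFlips K)

open Classical in
include hsep in
/-- The sum of an odd function over the orbit of the stabilizer. -/
theorem sum_stab {x : Emb K → ℝ} (hx : Odd' x) (y₀ y : Emb K) :
    ∑ e ∈ stab y₀, x (e y) = (stab y₀).card * (x y₀ * ((if y = y₀ then 1 else 0) -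
      (if y = bar y₀ then 1 else 0))) := by
  by_cases h1 : y = y₀
  · subst h1
    rw [if_pos rfl, if_neg (bar_ne y).symm, sub_zero, mul_one, ← nsmul_eq_mul, ← Finset.sum_const]
    refine Finset.sum_congr rfl fun e he => ?_
    obtain ⟨τ, h1, h2⟩ := mem_stab.1 he
    rw [← h1, h2]
  · by_cases h2 : y = bar y₀
    · subst h2
      rw [if_neg h1, if_pos rfl, zero_sub, mul_neg, mul_one, ← nsmul_eq_mul, ← Finset.sum_const]
      refine Finset.sum_congr rfl fun e he => ?_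
      obtain ⟨τ, h3, h4⟩ := mem_stab.1 he
      rw [← h3, act_bar, h4, hx]
    · rw [if_neg h1, if_neg h2, sub_zero, mul_zero, mul_zero]
      obtain ⟨τ, h3, h4⟩ := hsep y₀ y h1 h2
      have h5 : act τ y₀ = y₀ := by
        rcases y₀ with ⟨i, φ⟩
        exact Sigma.ext rfl (heq_of_eq (by ext x; exact h3 x))
      have h6 : act τ y = bar y := by
        rcases y with ⟨i, φ⟩
        exact Sigma.ext rfl (heq_of_eq (by ext x; exact h4 x))
      have h7 : act τ ∈ stab y₀ := mem_stab.2 ⟨τ, rfl, h5⟩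
      have h8 : ∑ e ∈ stab y₀, x (e y) = ∑ e ∈ stab y₀, x ((e * act τ : Equiv.Perm (Emb K)) y) := by
        refine (Finset.sum_nbij' (fun e => e * act τ) (fun e => e * (act τ)⁻¹)
          (fun e he => mul_mem_stab he h7) (fun e he => mul_mem_stab he (inv_mem_stab h7))
          (fun e _ => ?_) (fun e _ => ?_) (fun e _ => rfl)).symm
        · rw [mul_assoc, mul_inv_cancel, mul_one]
        · rw [mul_assoc, inv_mul_cancel, mul_one]
      have h9 : ∑ e ∈ stab y₀, x ((e * act τ : Equiv.Perm (Emb K)) y) = - ∑ e ∈ stab y₀, x (e y) := by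
        rw [← Finset.sum_neg_distrib]
        refine Finset.sum_congr rfl fun e he => ?_
        obtain ⟨τ', h10, h11⟩ := mem_stab.1 he
        rw [Equiv.Perm.mul_apply, h6, ← h10, act_bar, hx]
      rw [h9] at h8
      linarith

include hsep in
theorem sum_sum_stab {x n : Emb K → ℝ} (hx : Odd' x) (hn : Odd' n) (y₀ : Emb K)
    (σ : ℂ ≃+* ℂ) :
    ∑ e ∈ stab y₀, ∑ y, n y * x (e (act σ y)) =
      2 * (stab y₀).card * (n ((act σ).symm y₀) * x y₀) := by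
  classical
  rw [Finset.sum_comm]
  have h1 : ∀ y, ∑ e ∈ stab y₀, n y * x (e (act σ y)) = (stab y₀).card * x y₀ *
      ((if y = (act σ).symm y₀ then n y else 0) - (if y = (act σ).symm (bar y₀) then n y else 0)) := by
    intro y
    rw [← Finset.mul_sum, sum_stab hsep hx]
    have h2 : ∀ z, (act σ y = z) ↔ y = (act σ).symm z := fun z => by
      rw [Equiv.eq_symm_apply]
    simp only [h2]
    split_ifs <;> ring
  rw [Finset.sum_congr rfl fun y _ => h1 y, ← Finset.mul_sum, Finset.sum_sub_distrib,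
    Finset.sum_ite_eq' , Finset.sum_ite_eq', if_pos (Finset.mem_univ _), if_pos (Finset.mem_univ _)]
  have h3 : (act σ).symm (bar y₀) = bar ((act σ).symm y₀) := by
    rw [Equiv.symm_apply_eq, act_bar, Equiv.apply_symm_apply]
  rw [h3, hn]
  ring

include hsep in
/-- **The key lemma.** -/
theorem key {x x' n n' : Emb K → ℝ} (hx : Odd' x) (hx' : Odd' x') (hn : Odd' n) (hn' : Odd' n')
    (h : ∀ σ : ℂ ≃+* ℂ, ∑ y, n y * x (act σ y) = ∑ y, n' y * x' (act σ y)) (i : I)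
    (φ ψ : K i →+* ℂ) : n ⟨i, φ⟩ * x ⟨i, ψ⟩ = n' ⟨i, φ⟩ * x' ⟨i, ψ⟩ := by
  classical
  obtain ⟨σ, hσ⟩ := exists_comp_eq (K i) φ ψ
  have h1 : (act σ).symm (⟨i, ψ⟩ : Emb K) = ⟨i, φ⟩ := by
    rw [Equiv.symm_apply_eq]
    exact Sigma.ext rfl (heq_of_eq hσ.symm)
  have h2 : ∑ e ∈ stab (⟨i, ψ⟩ : Emb K), ∑ y, n y * x (e (act σ y)) =
      ∑ e ∈ stab (⟨i, ψ⟩ : Emb K), ∑ y, n' y * x' (e (act σ y)) := by
    refine Finset.sum_congr rfl fun e he => ?_
    obtain ⟨τ, h3, h4⟩ := mem_stab.1 he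
    have h5 := h (σ.trans τ)
    simp only [act_trans, h3] at h5
    exact h5
  rw [sum_sum_stab hsep hx hn, sum_sum_stab hsep hx' hn', h1] at h2
  have h3 : (0 : ℝ) < 2 * (stab (⟨i, ψ⟩ : Emb K)).card := by
    have : 0 < (stab (⟨i, ψ⟩ : Emb K)).card := Finset.card_pos.2 ⟨1, one_mem_stab _⟩
    have h4 : (0 : ℝ) < (stab (⟨i, ψ⟩ : Emb K)).card := by exact_mod_cast this
    linarith
  exact mul_left_cancel₀ h3.ne' h2

/-- The function `x` takes part in a relation with the function `g` of automorphisms. -/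
def Bad (g : (ℂ ≃+* ℂ) → ℝ) (x : Emb K → ℝ) : Prop :=
  ∃ n : Emb K → ℝ, Odd' n ∧ n ≠ 0 ∧ ∃ c₁ c₂ : ℝ, ∀ σ : ℂ ≃+* ℂ,
    ∑ y, n y * x (act σ y) = c₁ * g σ + c₂

/-- The functions considered: odd and not zero on the embeddings of any of the fields. -/
def Good' (x : Emb K → ℝ) : Prop := Odd' x ∧ ∀ i, ∃ φ, x ⟨i, φ⟩ ≠ 0

include hsep in
theorem zero_of {x n : Emb K → ℝ} (hx : Good' x) (hn : Odd' n)
    (h : ∀ σ : ℂ ≃+* ℂ, ∑ y, n y * x (act σ y) = 0) : n = 0 := by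
  funext y
  rcases y with ⟨i, φ⟩
  obtain ⟨ψ, hψ⟩ := hx.2 i
  have h1 := key hsep hx.1 hx.1 hn (n' := fun _ => 0) (fun y => by simp)
    (fun σ => by rw [h σ]; simp) i φ ψ
  rw [zero_mul] at h1
  exact (mul_eq_zero.1 h1).resolve_right hψ

/-- The odd part of a relation. -/
theorem odd_part {g : (ℂ ≃+* ℂ) → ℝ} {x n : Emb K → ℝ} (hx : Odd' x) {c₁ c₂ : ℝ}
    (h : ∀ σ : ℂ ≃+* ℂ, ∑ y, n y * x (act σ y) = c₁ * g σ + c₂) (σ : ℂ ≃+* ℂ) :
    ∑ y, n y * x (act σ y) = c₁ * ((g σ - g (σ.trans starRingAut)) / 2) := by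
  have h1 := h (σ.trans starRingAut)
  have h2 : ∑ y, n y * x (act (σ.trans (starRingAut : ℂ ≃+* ℂ)) y) =
      - ∑ y, n y * x (act σ y) := by
    rw [← Finset.sum_neg_distrib]
    refine Finset.sum_congr rfl fun y _ => ?_
    rw [act_trans, act_star, hx]
    ring
  rw [h2] at h1
  have h3 := h σ
  linarith

include hsep in
/-- Two functions in relations with the same `g` are proportional. -/
theorem proportional {g : (ℂ ≃+* ℂ) → ℝ} {x x' n n' : Emb K → ℝ} (hx : Good' x) (hx' : Good' x')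
    (hn : Odd' n) (hn' : Odd' n') (h0' : n' ≠ 0) {c₁ c₂ c₁' c₂' : ℝ}
    (h : ∀ σ : ℂ ≃+* ℂ, ∑ y, n y * x (act σ y) = c₁ * g σ + c₂)
    (h' : ∀ σ : ℂ ≃+* ℂ, ∑ y, n' y * x' (act σ y) = c₁' * g σ + c₂') (i : I)
    (hi : ∃ φ, n ⟨i, φ⟩ ≠ 0) : ∃ c : ℝ, ∀ φ, x' ⟨i, φ⟩ = c * x ⟨i, φ⟩ := by
  have h1 := odd_part hx.1 h
  have h2 := odd_part hx'.1 h'
  have hc' : c₁' ≠ 0 := by
    rintro rfl
    refine h0' (zero_of hsep hx' hn' fun σ => ?_)
    rw [h2, zero_mul]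
  obtain ⟨φ, hφ⟩ := hi
  have hc : c₁ ≠ 0 := by
    rintro rfl
    have h3 := zero_of hsep hx hn fun σ => by
      rw [h1, zero_mul]
    exact hφ (by rw [h3]; rfl)
  have h3 := key hsep (n := fun y => c₁' * n y) (n' := fun y => c₁ * n' y) hx.1 hx'.1
    (fun y => by
      change c₁' * n (bar y) = -(c₁' * n y)
      rw [hn]
      ring) (fun y => by
      change c₁ * n' (bar y) = -(c₁ * n' y)
      rw [hn']
      ring) (fun σ => by
      have h4 : ∑ y, c₁' * n y * x (act σ y) = c₁' * ∑ y, n y * x (act σ y) := by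
        rw [Finset.mul_sum]
        exact Finset.sum_congr rfl fun y _ => by ring
      have h5 : ∑ y, c₁ * n' y * x' (act σ y) = c₁ * ∑ y, n' y * x' (act σ y) := by
        rw [Finset.mul_sum]
        exact Finset.sum_congr rfl fun y _ => by ring
      rw [h4, h5, h1, h2]
      ring) i φ
  obtain ⟨ψ, hψ⟩ := hx.2 i
  have h4 : n' ⟨i, φ⟩ ≠ 0 := by
    intro h5
    have h6 := h3 ψ
    rw [h5, mul_zero, zero_mul] at h6
    exact mul_ne_zero (mul_ne_zero hc' hφ) hψ h6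
  refine ⟨c₁' * n ⟨i, φ⟩ / (c₁ * n' ⟨i, φ⟩), fun χ => ?_⟩
  have h5 := h3 χ
  have h6 : c₁ * n' ⟨i, φ⟩ ≠ 0 := mul_ne_zero hc h4
  rw [div_mul_eq_mul_div, eq_div_iff h6]
  linarith

include hsep in
/-- **The exceptional lines.** -/
theorem exists_lines (g : ℂ → (ℂ ≃+* ℂ) → ℝ) (S : Finset ℂ) :
    ∃ E : Finset (Σ i, ((K i →+* ℂ) → ℝ)), E.card ≤ S.card ∧ ∀ x : Emb K → ℝ, Good' x →
      (∀ e ∈ E, ¬ ∃ c : ℝ, ∀ φ, x ⟨e.1, φ⟩ = c * e.2 φ) → ∀ β ∈ S, ¬ Bad (g β) x := by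
  classical
  -- one line for each `β`
  have hone : ∀ β : ℂ, ∃ E : Finset (Σ i, ((K i →+* ℂ) → ℝ)), E.card ≤ 1 ∧
      ∀ x : Emb K → ℝ, Good' x →
      (∀ e ∈ E, ¬ ∃ c : ℝ, ∀ φ, x ⟨e.1, φ⟩ = c * e.2 φ) → ¬ Bad (g β) x := by
    intro β
    by_cases h : ∃ x : Emb K → ℝ, Good' x ∧ Bad (g β) x
    · obtain ⟨x, hx, n, hn, hn0, c₁, c₂, h1⟩ := h
      obtain ⟨y, hy⟩ := Function.ne_iff.1 hn0
      rcases y with ⟨i, φ⟩
      refine ⟨{⟨i, fun φ => x ⟨i, φ⟩⟩}, by simp, fun x' hx' hE hbad => ?_⟩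
      obtain ⟨n', hn', hn0', c₁', c₂', h2⟩ := hbad
      exact hE _ (Finset.mem_singleton_self _)
        (proportional hsep hx hx' hn hn' hn0' h1 h2 i ⟨φ, hy⟩)
    · exact ⟨∅, by simp, fun x hx _ hbad => h ⟨x, hx, hbad⟩⟩
  choose E hE1 hE2 using hone
  refine ⟨S.biUnion E, ?_, fun x hx h β hβ => hE2 β x hx fun e he =>
    h e (Finset.mem_biUnion.2 ⟨β, hβ, he⟩)⟩
  calc (S.biUnion E).card ≤ ∑ β ∈ S, (E β).card := Finset.card_biUnion_le
    _ ≤ ∑ β ∈ S, 1 := Finset.sum_le_sum fun β _ => hE1 β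
    _ = S.card := by simp

end comb

end Pool.Agent.V1168.EV
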