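import Mathlib
import Pool.Agent.V1168.EV.Core

/-!
# There are no relations outside of the exceptional lines
-/

set_option autoImplicit false
set_option linter.unusedSectionVars false
set_option linter.unusedVariables false

namespace Pool.Agent.V1168.EV

open NumberField Finset Module Polynomial Pool.Agent.Y1.CT Pool.Agent.TH170.MF Pool.Agent.TH170
  Pool.Agent.W484.HS

variable {p : ℕ} [Fact p.Prime] {ν : PadicAlgCl p ≃+* ℂ} {a : ℕ} {I : Type} [Fintype I]
  {K : I → Type} [∀ i, Field (K i)] [∀ i, NumberField (K i)] [∀ i, IsCMField (K i)]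

/-- The slope vectors of a family, as a function on all embeddings. -/
noncomputable def slopes (ν : PadicAlgCl p ≃+* ℂ) (a : ℕ) (π : ∀ i, K i) (y : Emb K) : ℝ :=
  slopeVector ν a (π y.1) y.2

theorem weil_ne {π : ∀ i, K i}
    (hw : ∀ i, π i * IsCMField.complexConj (K i) (π i) = (p : K i) ^ a) (i : I) : π i ≠ 0 := by
  intro h0
  have h1 := hw i
  rw [h0, zero_mul] at h1
  exact pow_ne_zero a (Nat.cast_ne_zero.2 (Fact.out : p.Prime).ne_zero) h1.symm

theorem lg_weil {π : ∀ i, K i}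
    (hw : ∀ i, π i * IsCMField.complexConj (K i) (π i) = (p : K i) ^ a) (i : I)
    (φ : K i →+* ℂ) : φ (π i) * ComplexEmbedding.conjugate φ (π i) = (p : ℂ) ^ a := by
  have h4 := congrArg φ (hw i)
  rw [map_mul, IsCMField.complexEmbedding_complexConj, map_pow, map_natCast] at h4
  rw [ComplexEmbedding.conjugate_coe_eq, h4]

theorem odd_slopes {π : ∀ i, K i}
    (hw : ∀ i, π i * IsCMField.complexConj (K i) (π i) = (p : K i) ^ a) :
    Odd' (slopes ν a π) := by
  rintro ⟨i, φ⟩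
  have hπ := weil_ne hw i
  have h1 : lg ν (φ (π i)) + lg ν (ComplexEmbedding.conjugate φ (π i)) = -(a : ℝ) := by
    rw [← lg_mul ((_root_.map_ne_zero _).2 hπ) ((_root_.map_ne_zero _).2 hπ), lg_weil hw, lg_pow,
      lg_p]
    ring
  change 2 * (- lg ν (ComplexEmbedding.conjugate φ (π i))) - a = -(2 * (- lg ν (φ (π i))) - a)
  linarith

theorem good_slopes {π : ∀ i, K i}
    (hw : ∀ i, π i * IsCMField.complexConj (K i) (π i) = (p : K i) ^ a)
    (h : ∀ i, ∃ φ, slopeVector ν a (π i) φ ≠ 0) : Good' (slopes ν a π) :=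
  ⟨odd_slopes hw, h⟩

theorem not_bad_one (hsep : PairFlips K) {x : Emb K → ℝ} (hx : Good' x) :
    ¬ Bad (fun σ => lg ν (σ 1)) x := by
  rintro ⟨n, hn, hn0, c₁, c₂, h⟩
  refine hn0 (zero_of hsep hx hn fun σ => ?_)
  rw [odd_part hx.1 h σ]
  simp only [map_one, sub_self, zero_div, mul_zero]

theorem from_cases {S : Finset ℂ} {ρ : ℂ} (h : From p S ρ) :
    ∃ (β : ℂ) (τ : ℂ ≃+* ℂ) (m : ℕ) (n k : ℤ), β ≠ 0 ∧ (β = 1 ∨ β ∈ S) ∧ 0 < m ∧
      ρ ^ m = τ β ^ n * (p : ℂ) ^ k := by
  obtain ⟨h0, β, τ, m, n, k, hβ, hm, hρ⟩ := h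
  by_cases hβ0 : β = 0
  · subst hβ0
    have hn : n = 0 := by
      by_contra hn
      rw [map_zero, zero_zpow n hn, zero_mul] at hρ
      exact pow_ne_zero _ h0 hρ
    subst hn
    exact ⟨1, τ, m, 0, k, one_ne_zero, Or.inl rfl, hm, by rw [hρ, zpow_zero, zpow_zero]⟩
  · exact ⟨β, τ, m, n, k, hβ0, hβ, hm, hρ⟩

theorem exactPair_of {π : ∀ i, K i}
    (hw : ∀ i, π i * IsCMField.complexConj (K i) (π i) = (p : K i) ^ a) {S : Finset ℂ}
    (hbad : ∀ β, (β = 1 ∨ β ∈ S) → ¬ Bad (fun σ => lg ν (σ β)) (slopes ν a π))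
    (f : I → ℤ[X]) (hf : ∀ i, IsPolyOf (π i) (f i)) (s : ℕ) (hs : 0 < s) (ρ : ℂ)
    (hρ : From p S ρ) :
    ExactPairK (fun z : Root f => (z : ℂ) ^ s) (((p ^ a : ℕ) : ℂ) ^ s) ρ := by
  classical
  intro n c N hN hn ys hlen hrel hpw
  have hp0 : (p : ℂ) ≠ 0 := Nat.cast_ne_zero.2 (Fact.out : p.Prime).ne_zero
  have hπ0 := weil_ne hw
  obtain ⟨β, τ, m, n₁, k₁, hβ0, hβ, hm, hρβ⟩ := from_cases hρ
  have hτβ : τ β ≠ 0 := (_root_.map_ne_zero τ).2 hβ0
  have hρ0 : ρ ≠ 0 := by
    rintro rfl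
    rw [zero_pow hm.ne'] at hρβ
    exact mul_ne_zero (zpow_ne_zero _ hτβ) (zpow_ne_zero _ hp0) hρβ.symm
  let x : Emb K → ℝ := slopes ν a π
  have hz : ∀ z : Root f, ∃ y : Emb K, y.2 (π y.1) = z := by
    rintro ⟨z, i, hi⟩
    obtain ⟨φ, hφ⟩ := (hf i).2 z hi
    exact ⟨⟨i, φ⟩, hφ⟩
  choose idx hidx using hz
  have hz0 : ∀ z : Root f, (z : ℂ) ≠ 0 := by
    intro z
    rw [← hidx z]
    exact (_root_.map_ne_zero _).2 (hπ0 _)
  -- the slopes of the roots
  have hdev : ∀ (σ : ℂ ≃+* ℂ) (z : Root f), -(2 * lg ν (σ z)) = a + x (act σ (idx z)) := by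
    intro σ z
    have h5 : (act σ (idx z)).2 (π (act σ (idx z)).1) = σ z := by
      rw [← hidx z]
      rfl
    change _ = a + (2 * (- Real.logb p ‖ν.symm ((act σ (idx z)).2 (π (act σ (idx z)).1))‖) - a)
    rw [h5]
    unfold lg
    ring
  have hN0 : (N : ℝ) ≠ 0 := Nat.cast_ne_zero.2 hN.ne'
  have hlog : ∀ σ : ℂ ≃+* ℂ, s * (ys.map fun z : Root f => lg ν (σ z)).sum + lg ν (σ ρ) =
      -(c * (s * a)) := by
    intro σ
    have h1 := congrArg (fun x => lg ν (σ x)) hrel
    simp only [map_pow, map_mul, map_zpow₀, lg_pow, lg_zpow] at h1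
    have h2 := mul_left_cancel₀ hN0 h1
    have h3 : σ ((ys.map fun z : Root f => (z : ℂ) ^ s).prod) =
        (ys.map fun z : Root f => (σ z) ^ s).prod := by
      rw [_root_.map_list_prod, List.map_map]
      congr 1
      refine List.map_congr_left fun z _ => ?_
      rw [Function.comp_apply, map_pow]
    rw [h3] at h2
    obtain ⟨h4, h5⟩ := lg_list (ν := ν) (fun z : Root f => (σ (z : ℂ)) ^ s) ys
      (fun z _ => pow_ne_zero _ ((_root_.map_ne_zero σ).2 (hz0 z)))
    rw [lg_mul h4 ((_root_.map_ne_zero σ).2 hρ0), h5] at h2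
    have h6 : (ys.map fun z : Root f => lg ν ((σ (z : ℂ)) ^ s)).sum =
        s * (ys.map fun z : Root f => lg ν (σ z)).sum := by
      rw [← List.sum_map_mul_left]
      congr 1
      refine List.map_congr_left fun z _ => ?_
      rw [lg_pow]
    rw [h6] at h2
    rw [h2, map_natCast]
    push_cast
    rw [lg_pow, lg_p]
    ring
  -- the sums of the deviations
  have hsum : ∀ σ : ℂ ≃+* ℂ, (ys.map fun z : Root f => x (act σ (idx z))).sum =
      2 * (c * a + lg ν (σ ρ) / s) - a * n := by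
    intro σ
    have h1 : (ys.map fun z : Root f => x (act σ (idx z))).sum =
        -(2 * (ys.map fun z : Root f => lg ν (σ z)).sum) - a * n := by
      have h2 : ∀ l : List (Root f), (l.map fun z : Root f => x (act σ (idx z))).sum =
          -(2 * (l.map fun z : Root f => lg ν (σ z)).sum) - a * l.length := by
        intro l
        induction l with
        | nil => simp
        | cons z l ih =>
          rw [List.map_cons, List.sum_cons, ih, List.map_cons, List.sum_cons, List.length_cons]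
          have h3 := hdev σ z
          push_cast
          linarith
      rw [h2, hlen]
    have hs' : (s : ℝ) ≠ 0 := Nat.cast_ne_zero.2 hs.ne'
    have h2 : (ys.map fun z : Root f => lg ν (σ z)).sum =
        -(c * a) - lg ν (σ ρ) / s := by
      apply mul_left_cancel₀ hs'
      rw [mul_sub, mul_div_cancel₀ _ hs']
      have := hlog σ
      linarith
    rw [h1, h2]
    ring
  -- the number `ρ` and the number `β`
  have hm' : (m : ℝ) ≠ 0 := Nat.cast_ne_zero.2 hm.ne'
  have hlρ : ∀ σ : ℂ ≃+* ℂ, lg ν (σ ρ) = (n₁ * lg ν (σ (τ β)) - k₁) / m := by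
    intro σ
    rw [eq_div_iff hm', mul_comm, ← lg_pow, ← map_pow, hρβ, map_mul, map_zpow₀, map_zpow₀,
      map_natCast, lg_mul (zpow_ne_zero _ ((_root_.map_ne_zero σ).2 hτβ)) (zpow_ne_zero _ hp0),
      lg_zpow, lg_zpow, lg_p]
    ring
  let cnt : Emb K → ℝ := fun y => (ys.map fun z => if idx z = y then (1 : ℝ) else 0).sum
  have hcnt : ∀ y, cnt y = cnt (bar y) := by
    by_contra hcon
    push Not at hcon
    obtain ⟨y₁, hy₁⟩ := hcon
    refine hbad β hβ ⟨fun y => cnt (act τ y) - cnt (bar (act τ y)), ?_, ?_,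
      4 * n₁ / (m * s), 4 * (c * a - k₁ / (m * s)) - 2 * (a * n), ?_⟩
    · intro y
      change cnt (act τ (bar y)) - cnt (bar (act τ (bar y))) =
        -(cnt (act τ y) - cnt (bar (act τ y)))
      rw [act_bar, bar_bar]
      ring
    · intro h0
      have h1 := congrFun h0 ((act τ).symm y₁)
      simp only [Equiv.apply_symm_apply, Pi.zero_apply] at h1
      exact hy₁ (sub_eq_zero.1 h1)
    · intro σ
      have h1 : ∑ y : Emb K, (cnt (act τ y) - cnt (bar (act τ y))) * x (act σ y) =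
          ∑ y : Emb K, (cnt y - cnt (bar y)) * x (act (τ.symm.trans σ) y) := by
        refine Fintype.sum_equiv (act τ) _ _ fun y => ?_
        have h2 : act (τ.symm.trans σ) (act τ y) = act σ y := by
          rcases y with ⟨i, φ⟩
          refine Sigma.ext rfl (heq_of_eq ?_)
          ext z
          change σ (τ.symm (τ (φ z))) = σ (φ z)
          rw [RingEquiv.symm_apply_apply]
        rw [h2]
      have h3 : ∑ y : Emb K, cnt (bar y) * x (act (τ.symm.trans σ) y) =
          ∑ y : Emb K, -(cnt y * x (act (τ.symm.trans σ) y)) := by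
        refine Finset.sum_nbij' bar bar (fun _ _ => Finset.mem_univ _)
          (fun _ _ => Finset.mem_univ _) (fun y _ => bar_bar y) (fun y _ => bar_bar y)
          (fun y _ => ?_)
        have h7 : x (bar (act (τ.symm.trans σ) y)) = - x (act (τ.symm.trans σ) y) :=
          odd_slopes hw _
        rw [act_bar, h7]
        ring
      have h4 := sum_list idx (fun y => x (act (τ.symm.trans σ) y)) ys
      have h5 := hsum (τ.symm.trans σ)
      have h6 : (τ.symm.trans σ) (τ β) = σ β := by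
        change σ (τ.symm (τ β)) = σ β
        rw [RingEquiv.symm_apply_apply]
      rw [hlρ, h6] at h5
      change ∑ y : Emb K, (cnt (act τ y) - cnt (bar (act τ y))) * x (act σ y) = _
      rw [h1]
      simp only [sub_mul, Finset.sum_sub_distrib]
      rw [h3, Finset.sum_neg_distrib]
      change ∑ y, cnt y * x (act (τ.symm.trans σ) y) = _ at h4
      rw [h4, h5]
      have hs' : (s : ℝ) ≠ 0 := Nat.cast_ne_zero.2 hs.ne'
      field_simp
      ring
  -- the first element of the list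
  obtain ⟨z₀, hz₀⟩ := List.exists_mem_of_length_pos (l := ys) (by omega)
  have h1 : 0 < cnt (idx z₀) := (count_pos idx _ ys).2 ⟨z₀, hz₀, rfl⟩
  rw [hcnt] at h1
  obtain ⟨z₁, hz₁, h2⟩ := (count_pos idx _ ys).1 h1
  have hne : z₀ ≠ z₁ := by
    rintro rfl
    exact bar_ne _ h2.symm
  have hsymm : Std.Symm (fun y y' : Root f => (y : ℂ) ^ s * (y' : ℂ) ^ s ≠
      ((p ^ a : ℕ) : ℂ) ^ s) := ⟨by
    intro x y h h'
    exact h (by rw [mul_comm]; exact h')⟩
  refine hpw.forall hz₀ hz₁ hne ?_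
  have h3 : (z₁ : ℂ) = ComplexEmbedding.conjugate (idx z₀).2 (π (idx z₀).1) := by
    rw [← hidx z₁, h2]
    rfl
  change (z₀ : ℂ) ^ s * (z₁ : ℂ) ^ s = _
  rw [h3, ← hidx z₀, ← mul_pow, lg_weil hw]
  push_cast
  rfl

theorem from_one (p : ℕ) (S : Finset ℂ) : From p S 1 :=
  ⟨one_ne_zero, 1, RingEquiv.refl ℂ, 1, 0, 0, Or.inl rfl, one_pos, by simp⟩

/-- **The general theorem.** -/
theorem exists_lines_forall {p : ℕ} [Fact p.Prime] (ν : PadicAlgCl p ≃+* ℂ) {I : Type} [Finite I]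
    (K : I → Type) [∀ i, Field (K i)] [∀ i, NumberField (K i)] [∀ i, IsCMField (K i)]
    (hsep : PairFlips K) (S : Finset ℂ) :
    ∃ E : Finset (Σ i, ((K i →+* ℂ) → ℝ)), E.card ≤ S.card ∧
      ∀ P : ℕ → (I → ℤ[X]) → Prop,
        (∀ (q : ℕ) (f : I → ℤ[X]), 1 < q → NoRel f q (From p S) → P q f) →
          ForAllOutside ν K P E := by
  have := Fintype.ofFinite I
  obtain ⟨E, hE1, hE2⟩ := exists_lines hsep (fun β σ => lg ν (σ β)) S
  refine ⟨E, hE1, fun P hP a π f ha hw hne hE hf => ?_⟩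
  refine hP (p ^ a) f (Nat.one_lt_pow ha.ne' (Fact.out : p.Prime).one_lt)
    ⟨fun i => (hf i).1, from_one p S, fun s hs ρ hρ => ?_⟩
  have hx := good_slopes (ν := ν) hw hne
  refine exactPair_of (ν := ν) hw (fun β hβ => ?_) f hf s hs ρ hρ
  rcases hβ with rfl | hβ
  · exact not_bad_one hsep hx
  · exact hE2 _ hx hE β hβ

end Pool.Agent.V1168.EV
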