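import Mathlib
import Pool.Agent.V1168.EV.Defs
import Pool.Agent.Y137.SL.Defs

/-!
# Products of abelian varieties with one Frobenius element and arbitrary smooth varieties: definitions
-/

set_option autoImplicit false

namespace Pool.Agent.V1168.EV

open NumberField Module IntermediateField Pool.Agent.Y137.MV Pool.Agent.Y137.SL

/-- The Tate classes on the products `A ^ n × U` are generated by those on `A ^ n` of degree two and
those on `U`, whenever `A` has a Frobenius element `γ` at a place with `p ^ a` elements in the
residue field with the characteristic polynomial `∏ i, minpoly (π i)` and the eigenvalues of `γ` on the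
cohomology of `U` are roots of a rational polynomial all of whose roots come from `Ω` (`From`). -/
def TateClassesSplit {p : ℕ} [Fact p.Prime] (Ω : Finset ℂ) (a : ℕ) {I : Type} [Fintype I]
    (K : I → Type) [∀ i, Field (K i)] [∀ i, NumberField (K i)] [∀ i, IsCMField (K i)]
    (π : ∀ i, K i) : Prop :=
  ∀ (k : Type) [Field k] [CharZero k] (V : Type) [AddCommGroup V] [Module k V]
    [FiniteDimensional k V] (M : Type) [AddCommGroup M] [Module k M] [FiniteDimensional k M]
    (Γ : Type) [Group Γ] (ρ : Representation k Γ V) (τ : Representation k Γ M) (χ : Γ →* k)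
    (γ : Γ), IsPolarised ρ χ γ p a π →
    ∀ f : Polynomial ℚ, f ≠ 0 → Polynomial.aeval (τ γ) (f.map (algebraMap ℚ k)) = 0 →
    (∀ α : ℂ, Polynomial.aeval α f = 0 → From p Ω α) → ClassesSplit ρ χ τ

/-- A property `P a π` of families of Weil numbers holds for all Weil numbers `π i` for `p ^ a` (any
`a > 0`) which generate the fields `K i`, not all slopes of which are equal, whose slope vectors are
not on the lines in `E`. An element `⟨i, v⟩` of `E` stands for the line generated by the function `v`
in the space of the functions on the complex embeddings of `K i`. -/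
def ForAllWeilOutside {p : ℕ} [Fact p.Prime] (ν : PadicAlgCl p ≃+* ℂ) {I : Type}
    (K : I → Type) [∀ i, Field (K i)] [∀ i, NumberField (K i)] [∀ i, IsCMField (K i)]
    (P : ℕ → (∀ i, K i) → Prop) (E : Finset (Σ i, ((K i →+* ℂ) → ℝ))) : Prop :=
  ∀ (a : ℕ) (π : ∀ i, K i), 0 < a → (∀ i, ℚ⟮π i⟯ = ⊤) →
    (∀ i, π i * IsCMField.complexConj (K i) (π i) = (p : K i) ^ a) →
    (∀ i, ∃ φ, slopeVector ν a (π i) φ ≠ 0) →
    (∀ e ∈ E, ¬ ∃ c : ℝ, ∀ φ, slopeVector ν a (π e.1) φ = c * e.2 φ) → P a π

end Pool.Agent.V1168.EV
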