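import Mathlib
import Pool.Agent.V1168.EV.SplitDefs
import Pool.Agent.V1168.EV.Rel
import Pool.Agent.Y1.TS.Split

/-!
# The splitting of the Tate classes outside of the exceptional lines
-/

set_option autoImplicit false
set_option linter.unusedSectionVars false
set_option linter.unusedVariables false

namespace Pool.Agent.V1168.EV

open NumberField Module TensorProduct IntermediateField
open Pool.Agent.H204R3.CM Pool.Agent.H204R3.SP Pool.Agent.H204R3.GP Pool.Agent.Y137.MV
  Pool.Agent.Y137.SL Pool.Agent.Y1.CT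

variable {p : ℕ} [Fact p.Prime] {ν : PadicAlgCl p ≃+* ℂ} {a : ℕ} {I : Type} [Fintype I]
  {K : I → Type} [∀ i, Field (K i)] [∀ i, NumberField (K i)] [∀ i, IsCMField (K i)]
  {π : ∀ i, K i}

theorem two_lg (y : Emb K) (σ : ℂ ≃+* ℂ) :
    -(2 * lg ν (σ (y.2 (π y.1)))) = a + slopes ν a π (act σ y) := by
  have h5 : (act σ y).2 (π (act σ y).1) = σ (y.2 (π y.1)) := rfl
  change _ = a + (2 * (- Real.logb p ‖ν.symm ((act σ y).2 (π (act σ y).1))‖) - a)
  rw [h5]
  unfold lg
  ring

theorem lg_prod {X : Type*} (s : Finset X) (w : X → ℂ) (h : ∀ x ∈ s, w x ≠ 0) :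
    lg ν (∏ x ∈ s, w x) = ∑ x ∈ s, lg ν (w x) := by
  classical
  induction s using Finset.induction_on with
  | empty => simp [lg]
  | insert x s hx ih =>
    rw [Finset.prod_insert hx, Finset.sum_insert hx,
      lg_mul (h x (Finset.mem_insert_self _ _))
        (Finset.prod_ne_zero_iff.2 fun y hy => h y (Finset.mem_insert_of_mem hy)),
      ih fun y hy => h y (Finset.mem_insert_of_mem hy)]

/-- The sum of an odd function against a function. -/
theorem sum_odd {x m : Emb K → ℝ} (hx : Odd' x) (σ : ℂ ≃+* ℂ) :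
    ∑ y, (m y - m (bar y)) * x (act σ y) = 2 * ∑ y, m y * x (act σ y) := by
  have h3 : ∑ y : Emb K, m (bar y) * x (act σ y) = ∑ y : Emb K, -(m y * x (act σ y)) := by
    refine Finset.sum_nbij' bar bar (fun _ _ => Finset.mem_univ _)
      (fun _ _ => Finset.mem_univ _) (fun y _ => bar_bar y) (fun y _ => bar_bar y)
      (fun y _ => ?_)
    rw [act_bar, hx]
    ring
  simp only [sub_mul, Finset.sum_sub_distrib]
  rw [h3, Finset.sum_neg_distrib]
  ring

theorem angle_of (hsep : PairFlips K)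
    (hw : ∀ i, π i * IsCMField.complexConj (K i) (π i) = (p : K i) ^ a)
    (hne : ∀ i, ∃ φ, slopeVector ν a (π i) φ ≠ 0) : MaximalAngleRank (p ^ a) π := by
  classical
  intro r n hrel i φ
  have hπ0 := weil_ne hw
  have hx := good_slopes (ν := ν) hw hne
  let m : Emb K → ℝ := fun y => (n y : ℝ)
  have h1 : ∀ σ : ℂ ≃+* ℂ, ∑ y : Emb K, m y * lg ν (σ (y.2 (π y.1))) = -(r * a) := by
    intro σ
    have h2 := congrArg (fun z => lg ν (σ z)) hrel
    simp only [map_prod, map_zpow₀, map_natCast] at h2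
    rw [lg_prod _ _ (fun y _ => zpow_ne_zero _ ((_root_.map_ne_zero σ).2
      ((_root_.map_ne_zero _).2 (hπ0 _)))), lg_zpow] at h2
    simp only [lg_zpow] at h2
    change ∑ y : Emb K, (n y : ℝ) * lg ν (σ (y.2 (π y.1))) = _ at h2
    change ∑ y : Emb K, (n y : ℝ) * lg ν (σ (y.2 (π y.1))) = _
    rw [h2]
    push_cast
    rw [lg_pow, lg_p]
    ring
  have h2 : ∀ σ : ℂ ≃+* ℂ, ∑ y : Emb K, m y * slopes ν a π (act σ y) =
      2 * (r * a) - a * ∑ y, m y := by
    intro σ
    have h3 : ∀ y : Emb K, m y * slopes ν a π (act σ y) =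
        -2 * (m y * lg ν (σ (y.2 (π y.1)))) - a * m y := by
      intro y
      have h4 := two_lg (ν := ν) (a := a) (π := π) y σ
      have h5 : slopes ν a π (act σ y) = -(2 * lg ν (σ (y.2 (π y.1)))) - a := by linarith
      rw [h5]
      ring
    rw [Finset.sum_congr rfl fun y _ => h3 y, Finset.sum_sub_distrib, ← Finset.mul_sum, h1,
      ← Finset.mul_sum]
    ring
  have h3 := zero_of hsep hx (n := fun y => m y - m (bar y)) (fun y => by
      change m (bar y) - m (bar (bar y)) = -(m y - m (bar y))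
      rw [bar_bar]
      ring) (fun σ => by
      have h4 := odd_part (g := fun _ => 0) (c₁ := 0)
        (c₂ := 2 * (2 * (r * a) - a * ∑ y, m y)) (n := fun y => m y - m (bar y)) hx.1
        (fun σ => by
          change ∑ y, (m y - m (bar y)) * slopes ν a π (act σ y) = _
          rw [sum_odd hx.1, h2]
          ring) σ
      rw [h4]
      ring)
  have h4 := congrFun h3 ⟨i, φ⟩
  have h5 : (n ⟨i, φ⟩ : ℝ) - (n ⟨i, ComplexEmbedding.conjugate φ⟩ : ℝ) = 0 := h4
  have h6 := sub_eq_zero.1 h5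
  exact_mod_cast h6

/-- The condition on the eigenvalues. -/
theorem forces_of {Ω : Finset ℂ}
    (hw : ∀ i, π i * IsCMField.complexConj (K i) (π i) = (p : K i) ^ a)
    (hbad : ∀ β, (β = 1 ∨ β ∈ Ω) → ¬ Bad (fun σ => lg ν (σ β)) (slopes ν a π))
    {L : Type*} [Field L] [NumberField L] [IsGalois ℚ L] (j : L →+* ℂ) (β : L) (i : I)
    (hf : From p Ω (j β)) : Forces π β i := by
  classical
  intro T N F hN hβN φ
  have hp0 : (p : ℂ) ≠ 0 := Nat.cast_ne_zero.2 (Fact.out : p.Prime).ne_zero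
  have hπ0 := weil_ne hw
  obtain ⟨β', τ, m, n₁, k₁, hβ0, hβ', hm, hρβ⟩ := from_cases hf
  have hτβ : τ β' ≠ 0 := (_root_.map_ne_zero τ).2 hβ0
  have hm' : (m : ℝ) ≠ 0 := Nat.cast_ne_zero.2 hm.ne'
  have hlρ : ∀ σ : ℂ ≃+* ℂ, lg ν (σ (j β)) = (n₁ * lg ν (σ (τ β')) - k₁) / m := by
    intro σ
    rw [eq_div_iff hm', mul_comm, ← lg_pow, ← map_pow, hρβ, map_mul, map_zpow₀, map_zpow₀,
      map_natCast, lg_mul (zpow_ne_zero _ ((_root_.map_ne_zero σ).2 hτβ)) (zpow_ne_zero _ hp0),
      lg_zpow, lg_zpow, lg_p]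
    ring
  let J : (Σ i, (K i →+* L)) → Emb K := fun x => ⟨x.1, j.comp x.2⟩
  have hJ : Function.Injective J := by
    rintro ⟨a, φ⟩ ⟨b, ψ⟩ h
    simp only [J, Sigma.mk.injEq] at h
    obtain ⟨rfl, h⟩ := h
    rw [H194R3.CM.comp_injective j (eq_of_heq h)]
  let cnt : Emb K → ℝ := fun x => ((Finset.univ.filter (fun l => J (F l) = x)).card : ℝ)
  have hN' : (N : ℝ) ≠ 0 := Nat.cast_ne_zero.2 hN.ne'
  have h1 : ∀ σ : ℂ ≃+* ℂ, lg ν (σ (j β)) =
      ∑ l, lg ν (σ ((J (F l)).2 (π (J (F l)).1))) := by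
    intro σ
    have h2 := congrArg (fun x => lg ν (σ (j x))) hβN
    change lg ν (σ (j (β ^ N))) = lg ν (σ (j (∏ l, ((F l).2 (π (F l).1)) ^ N))) at h2
    simp only [map_pow, map_prod] at h2
    rw [lg_pow, lg_prod _ _ (fun l _ => pow_ne_zero _ ((_root_.map_ne_zero σ).2
      ((_root_.map_ne_zero j).2 ((_root_.map_ne_zero _).2 (hπ0 _)))))] at h2
    simp only [lg_pow] at h2
    rw [← Finset.mul_sum] at h2
    exact mul_left_cancel₀ hN' h2
  have h2 : ∀ σ : ℂ ≃+* ℂ, ∑ y, cnt y * slopes ν a π (act σ y) =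
      -(2 * lg ν (σ (j β))) - a * T := by
    intro σ
    have h3 : ∀ y : Emb K, cnt y * slopes ν a π (act σ y) =
        ∑ l ∈ Finset.univ.filter (fun l => J (F l) = y), slopes ν a π (act σ (J (F l))) := by
      intro y
      rw [Finset.sum_congr rfl (g := fun _ => slopes ν a π (act σ y)) (fun l hl => by
        rw [(Finset.mem_filter.1 hl).2]), Finset.sum_const, nsmul_eq_mul]
    rw [Finset.sum_congr rfl fun y _ => h3 y,
      Finset.sum_fiberwise (s := Finset.univ) (g := fun l => J (F l))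
        (f := fun l => slopes ν a π (act σ (J (F l)))), h1]
    have h4 : ∀ l, slopes ν a π (act σ (J (F l))) =
        -2 * lg ν (σ ((J (F l)).2 (π (J (F l)).1))) - a := by
      intro l
      have h5 := two_lg (ν := ν) (a := a) (π := π) (J (F l)) σ
      linarith
    rw [Finset.sum_congr rfl fun l _ => h4 l, Finset.sum_sub_distrib, ← Finset.mul_sum,
      Finset.sum_const, Finset.card_univ, Fintype.card_fin, nsmul_eq_mul]
    ring
  have hcnt : ∀ y, cnt y = cnt (EV.bar y) := by
    by_contra hcon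
    push Not at hcon
    obtain ⟨y₁, hy₁⟩ := hcon
    refine hbad β' hβ' ⟨fun y => cnt (act τ y) - cnt (EV.bar (act τ y)), ?_, ?_,
      -(4 * n₁ / m), 4 * k₁ / m - 2 * (a * T), ?_⟩
    · intro y
      change cnt (act τ (EV.bar y)) - cnt (EV.bar (act τ (EV.bar y))) =
        -(cnt (act τ y) - cnt (EV.bar (act τ y)))
      rw [act_bar, bar_bar]
      ring
    · intro h0
      have h1 := congrFun h0 ((act τ).symm y₁)
      simp only [Equiv.apply_symm_apply, Pi.zero_apply] at h1
      exact hy₁ (sub_eq_zero.1 h1)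
    · intro σ
      have h3 : ∑ y : Emb K, (cnt (act τ y) - cnt (EV.bar (act τ y))) * slopes ν a π (act σ y) =
          ∑ y : Emb K, (cnt y - cnt (EV.bar y)) * slopes ν a π (act (τ.symm.trans σ) y) := by
        refine Fintype.sum_equiv (act τ) _ _ fun y => ?_
        have h4 : act (τ.symm.trans σ) (act τ y) = act σ y := by
          rcases y with ⟨i, φ⟩
          refine Sigma.ext rfl (heq_of_eq ?_)
          ext z
          change σ (τ.symm (τ (φ z))) = σ (φ z)
          rw [RingEquiv.symm_apply_apply]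
        rw [h4]
      have h6 : (τ.symm.trans σ) (τ β') = σ β' := by
        change σ (τ.symm (τ β')) = σ β'
        rw [RingEquiv.symm_apply_apply]
      rw [h3, sum_odd (odd_slopes hw), h2, hlρ, h6]
      field_simp
      ring
  have h9 := hcnt ⟨i, j.comp φ⟩
  have h4 : (Finset.univ.filter (fun l => F l = ⟨i, φ⟩)).card =
      (Finset.univ.filter (fun l => J (F l) = ⟨i, j.comp φ⟩)).card := by
    congr 1
    ext l
    simp only [Finset.mem_filter, Finset.mem_univ, true_and]
    exact ⟨fun h => by rw [h], fun h => hJ h⟩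
  have h5 : (Finset.univ.filter (fun l => F l = Pool.Agent.H204R3.GP.bar ⟨i, φ⟩)).card =
      (Finset.univ.filter (fun l => J (F l) =
        ⟨i, ComplexEmbedding.conjugate (j.comp φ)⟩)).card := by
    congr 1
    ext l
    simp only [Finset.mem_filter, Finset.mem_univ, true_and]
    have h6 : J (Pool.Agent.H204R3.GP.bar ⟨i, φ⟩) = ⟨i, ComplexEmbedding.conjugate (j.comp φ)⟩ := by
      simp only [J, Pool.Agent.H204R3.GP.bar]
      rw [comp_cbar]
    rw [← h6]
    exact ⟨fun h => by rw [h], fun h => hJ h⟩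
  rw [h4, h5]
  have h10 : ((Finset.univ.filter (fun l => J (F l) = ⟨i, j.comp φ⟩)).card : ℝ) =
      ((Finset.univ.filter (fun l => J (F l) =
        ⟨i, ComplexEmbedding.conjugate (j.comp φ)⟩)).card : ℝ) := h9
  exact_mod_cast h10

end Pool.Agent.V1168.EV
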