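import Mathlib
import Pool.Agent.V1168.EV.Defs
import Pool.Agent.Y156.L.Props

/-!
# Products with all varieties: hypotheses on the varieties
-/

set_option autoImplicit false

namespace Pool.Agent.V1168.EV

open Polynomial Module Pool.Agent.Y156.L Pool.Agent.Y1.CT

section

variable {Λ : Type} [Field Λ] {A : AbelianData Λ}

/-- The Frobenius endomorphism of `Y` satisfies, on each group `H^i(A × Y, j)`, a nonzero rational
polynomial all of whose complex roots come from `Ω` (`From`). -/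
def FrobeniusFrom (p : ℕ) (Ω : Finset ℂ) (T : RelData A) : Prop :=
  ∀ i j : ℤ, ∃ χ : ℚ[X], χ ≠ 0 ∧ (∀ ρ : ℂ, aeval ρ χ = 0 → From p Ω ρ) ∧
    ∀ m, T.DegM i j m → aeval T.frobM χ m = 0

/-- The Frobenius endomorphism of `Y` satisfies, on each group `H^(2 c)(A × Y, c)`, a nonzero rational
polynomial all of whose complex roots come from `Ω` (`From`). -/
def DiagFrom (p : ℕ) (Ω : Finset ℂ) (T : RelData A) : Prop :=
  ∀ c : ℤ, ∃ χ : ℚ[X], χ ≠ 0 ∧ (∀ ρ : ℂ, aeval ρ χ = 0 → From p Ω ρ) ∧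
    ∀ m, T.DegM (2 * c) c m → aeval T.frobM χ m = 0

end

end Pool.Agent.V1168.EV
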