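import Mathlib
import Pool.Agent.V1168.EV.Split

/-!
# The splitting of the Tate classes outside of the exceptional lines: the theorem
-/

set_option autoImplicit false
set_option linter.unusedSectionVars false
set_option linter.unusedVariables false

namespace Pool.Agent.V1168.EV

open NumberField Module TensorProduct IntermediateField
open Pool.Agent.H204R3.CM Pool.Agent.H204R3.SP Pool.Agent.H204R3.GP Pool.Agent.Y137.MV
  Pool.Agent.Y137.SL

/-- The splitting, if all eigenvalues force relations to be balanced. -/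
theorem split_of_forces {p : ℕ} [Fact p.Prime] {a : ℕ}
    {ι : Type} [Fintype ι] {F : ι → Type} [∀ i, Field (F i)] [∀ i, NumberField (F i)]
    [∀ i, IsCMField (F i)] {π : ∀ i, F i} (hgen : ∀ i, ℚ⟮π i⟯ = ⊤)
    (hw : ∀ i, π i * IsCMField.complexConj (F i) (π i) = (p : F i) ^ a)
    (hang : MaximalAngleRank (p ^ a) π) (k : Type) [Field k] [CharZero k] (V : Type)
    [AddCommGroup V] [Module k V] [FiniteDimensional k V] (M : Type) [AddCommGroup M]
    [Module k M] [FiniteDimensional k M] (Γ : Type) [Group Γ] (ρ : Representation k Γ V)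
    (τ : Representation k Γ M) (χ : Γ →* k) (γ : Γ) (hp : IsPolarised ρ χ γ p a π)
    (f : Polynomial ℚ) (hf0 : f ≠ 0)
    (hfγ : Polynomial.aeval (τ γ) (f.map (algebraMap ℚ k)) = 0)
    (hfor : ∀ (L : Type) [Field L] [NumberField L] [IsGalois ℚ L] (j : L →+* ℂ) (β : L),
      Polynomial.aeval (j β) f = 0 → ∀ i, Forces π β i) : ClassesSplit ρ χ τ := by
  classical
  obtain ⟨hss, ⟨ω, halt, hnd, hωρ⟩, hχ, hγ⟩ := hp
  have hπ0 : ∀ i, π i ≠ 0 := by
    intro i h0
    have h1 := hw i
    rw [h0, zero_mul] at h1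
    exact pow_ne_zero a (Nat.cast_ne_zero.2 (Fact.out : p.Prime).ne_zero) h1.symm
  obtain ⟨L, hLa, hLb, j, h, hroots⟩ := exists_galois_roots F f hf0
  have hneat : Neat p a π L := neat_of_angle j hang
  have hun : ∀ β : L, Polynomial.aeval β f = 0 → ∀ i, Forces π β i := by
    intro β hβ i
    have hα : Polynomial.aeval (j β) f = 0 := by
      have h1 := Polynomial.aeval_algHom_apply (RingHom.equivRatAlgHom L ℂ j) β f
      rw [hβ, map_zero] at h1
      exact h1
    exact hfor L j β hα i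
  have hss' : ∀ Δ : Subgroup Γ, Δ.FiniteIndex → SemiUnder (ρ '' (Δ : Set Γ)) := by
    intro Δ hΔ U hU
    obtain ⟨U', h1, h2⟩ := hss Δ hΔ U (fun s hs u hu => hU _ ⟨s, hs, rfl⟩ u hu)
    refine ⟨U', ?_, h1⟩
    rintro _ ⟨s, hs, rfl⟩ u hu
    exact h2 s hs u hu
  constructor
  · intro n m g hg
    have h1 := final_step ρ χ τ g hg (fun l => alt_of_comp ρ χ _ (fun c => by
      have h2 := comp_mem (L := L) ρ χ τ hgen hw j h hneat ω halt hnd hωρ hss' γ hχ hγ hun hroots
        hfγ (component_eqv hg c) l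
      exact h2))
    refine Submodule.span_mono ?_ h1
    rintro x ⟨y, ⟨B, hB, hy⟩, w, hw, hx⟩
    refine ⟨B, w, hB, hw, fun v => ?_⟩
    rw [hx, hy]
  · intro n m g hg
    ext v
    have h1 : v = fun l => ∑ i, Pi.single i (v l i) := by
      funext l
      exact (Finset.univ_sum_single (v l)).symm
    have h2 : g v = ∑ c : Fin (2 * m + 1) → Fin n,
        g.toMultilinearMap.compLinearMap
          (fun l => LinearMap.single k (fun _ : Fin n => V) (c l)) (fun l => v l (c l)) := by
      conv_lhs => rw [h1]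
      exact g.toMultilinearMap.map_sum (fun l i => Pi.single i (v l i))
    rw [h2]
    refine Finset.sum_eq_zero fun c _ => ?_
    have h3 := odd_zero (L := L) ρ χ τ hgen hw j h hneat ω halt hnd hωρ γ hχ hγ hun hroots
        hfγ (κ := Fin (2 * m + 1)) (by
          rw [Fintype.card_fin]
          exact ⟨m, rfl⟩) (component_eqv hg c)
    rw [h3]
    rfl

/-- **The theorem on one Frobenius element.** -/
theorem exists_lines_split {p : ℕ} [Fact p.Prime] (ν : PadicAlgCl p ≃+* ℂ) {I : Type}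
    [Fintype I] (K : I → Type) [∀ i, Field (K i)] [∀ i, NumberField (K i)]
    [∀ i, IsCMField (K i)] (hsep : PairFlips K) (Ω : Finset ℂ) :
    ∃ E : Finset (Σ i, ((K i →+* ℂ) → ℝ)), E.card ≤ Ω.card ∧
      ForAllWeilOutside ν K (fun a π => TateClassesSplit (p := p) Ω a K π) E := by
  obtain ⟨E, hE1, hE2⟩ := exists_lines hsep (fun β σ => Y1.CT.lg ν (σ β)) Ω
  refine ⟨E, hE1, fun a π ha hgen hw hne hE => ?_⟩
  have hx := good_slopes (ν := ν) hw hne
  have hbad : ∀ β, (β = 1 ∨ β ∈ Ω) → ¬ Bad (fun σ => Y1.CT.lg ν (σ β)) (slopes ν a π) := by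
    intro β hβ
    rcases hβ with rfl | hβ
    · exact not_bad_one hsep hx
    · exact hE2 _ hx hE β hβ
  intro k _ _ V _ _ _ M _ _ _ Γ _ ρ τ χ γ hp f hf0 hfγ hf
  exact split_of_forces hgen hw (angle_of hsep hw hne) k V M Γ ρ τ χ γ hp f hf0 hfγ
    fun L _ _ _ j β hβ i => forces_of hw hbad j β i (hf _ hβ)

end Pool.Agent.V1168.EV
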