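import Mathlib
import Pool.Agent.V1168.EV.Props
import Pool.Agent.V1168.BB.IsoDefs

/-!
# The equality of Tate over finite fields for products with all varieties: definitions
-/

set_option autoImplicit false

namespace Pool.Agent.V1168.EV

open Polynomial Module Pool.Agent.Y156.L Pool.Agent.Y1.CT Pool.Agent.V1168.BB

/-- The data of a smooth projective variety `Y` over a finite field. -/
structure SpanData {Λ : Type} [Field Λ] (A : AbelianData Λ) (L : Type) [Field L] where
  /-- the Chow groups of `Y` and `A × Y`, with rational coefficients -/
  T : RelData A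
  /-- the cohomology groups of `Y` and `A × Y` over the algebraic closure -/
  R : RelData A
  /-- the cycle class map -/
  ρ : Regulator T R
  [moduleN : Module L R.N]
  [moduleM : Module L R.M]

attribute [instance] SpanData.moduleN SpanData.moduleM

/-- The formal properties of the data: those of the theories `T` and `R` (`IsRel`), of the cycle class
map and of the vector space structure. -/
structure IsSpanTheory {Λ : Type} [Field Λ] {A : AbelianData Λ} {L : Type} [Field L]
    (V : SpanData A L) (Q : ℕ) : Prop where
  cycles : IsRel Q V.T
  cohomology : IsRel Q V.R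
  classMap : IsRegulator V.ρ
  linear : IsLinear L V.R

section

variable {Λ : Type} [Field Λ] {A : AbelianData Λ} {L : Type} [Field L] (V : SpanData A L)

/-- The `L`-span of the classes of the cycles of codimension `j` on `Y`. -/
def spanN (j : ℤ) : Submodule L V.R.N :=
  Submodule.span L {x | ∃ n, V.T.DegN (2 * j) j n ∧ V.ρ.regN n = x}

/-- The `L`-span of the classes of the cycles of codimension `j` on `A × Y`. -/
def spanM (j : ℤ) : Submodule L V.R.M :=
  Submodule.span L {x | ∃ m, V.T.DegM (2 * j) j m ∧ V.ρ.regM m = x}

/-- **The conjecture of Tate** for `Y` in codimension `j`: all elements of `H^(2 j)(Y)(j)` fixed by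
Frobenius are in the span of the classes of cycles. -/
def TateN (Q : ℕ) (j : ℤ) : Prop := ∀ w, V.R.InvN Q (2 * j) j w → w ∈ spanN V j

/-- **The conjecture of Tate** for `A × Y` in codimension `j`. -/
def TateM (Q : ℕ) (j : ℤ) : Prop := ∀ w, V.R.InvM Q (2 * j) j w → w ∈ spanM V j

end

section

variable {I : Type} (p : ℕ) (Ω : Finset ℂ) (q : ℕ) (f : I → ℤ[X])

/-- `TateSpanTimes p Ω q f`: for every abelian variety `A` as in `IsAbelian` over the field with
`Q = q ^ s` elements there are finitely many products `D t` of `c t` divisor classes on `A`, such that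
for every smooth projective variety `Y` over the field with `Q` elements, with the data `V` and the
properties `IsSpanTheory`, such that the Frobenius endomorphism of `Y` satisfies on each group
`H^(2 j)(A × Y)(j)` a nonzero rational polynomial with roots that come from `Ω` (`DiagFrom`), and
all `j`:

1. every element of `H^(2 j)(A × Y)(j)` fixed by Frobenius is in a unique way the sum of the products
  of the `D t` with elements of `H^(2 (j - c t))(Y)(j - c t)` fixed by Frobenius;
2. the conjecture of Tate holds for `A × Y` in codimension `j` if and only if it holds for `Y` in the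
  codimensions `j - k`, `0 ≤ k ≤ dim A`. -/
def TateSpanTimes : Prop :=
  ∀ (Λ : Type) [Field Λ] [CharZero Λ] (A : AbelianData Λ) (s : ℕ), IsAbelian A q s f →
    ∃ (J : Type) (_ : Fintype J) (c : J → ℕ) (D : J → A.CH), IsFamily A c D ∧
      ∀ (L : Type) [Field L] (V : SpanData A L), IsSpanTheory V (q ^ s) →
        DiagFrom p Ω V.R → ∀ j : ℤ,
          (∀ w, V.R.InvM (q ^ s) (2 * j) j w → ∃! z : J → V.R.N,
            (∀ t, V.R.InvN (q ^ s) (2 * (j - c t)) (j - c t) (z t)) ∧
              w = ∑ t, V.R.mul (D t) (z t)) ∧
          (TateM V (q ^ s) j ↔ ∀ k : ℕ, k ≤ A.dim → TateN V (q ^ s) (j - k))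

end

end Pool.Agent.V1168.EV
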