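import Mathlib
import Pool.Agent.V1168.EV.Props
import Pool.Agent.V1168.BB.IsoDefs

/-!
# The isomorphism of Tate for products with all varieties: definitions
-/

set_option autoImplicit false

namespace Pool.Agent.V1168.EV

open Polynomial Module Pool.Agent.Y156.L Pool.Agent.Y1.CT Pool.Agent.V1168.BB

section

variable {I : Type} (p : ℕ) (Ω : Finset ℂ) (q : ℕ) (f : I → ℤ[X])

/-- `TateIsoTimes p Ω q f`: for every abelian variety `A` as in `IsAbelian` over the field with
`Q = q ^ s` elements and every smooth projective variety `Y` over every field `k` finitely generated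
over the field with `Q` elements, with the data `V` (cycles modulo homological equivalence, and
geometric invariants in the cohomology) and the properties `IsTateTheory`, such that the Frobenius of
the field of constants, operating through `Y`, satisfies on each group `R^(2 j)(A × Y, j)` a nonzero
rational polynomial with roots that come from `Ω` (`DiagFrom`); and all `j`:

1. the group `A^j(A × Y)` is finitely generated if and only if the groups `A^(j - k)(Y)`,
  `0 ≤ k ≤ dim A`, are;
2. `A^j ⊗ L → H^(2 j)(j)` is injective for `A × Y` if and only if it is so for `Y` in the codimensions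
  `j - k`, `0 ≤ k ≤ dim A`;
3. the conjecture of Tate (`TateIsoM`) holds for `A × Y` in codimension `j` if and only if it holds
  for `Y` (`TateIsoN`) in the codimensions `j - k`, `0 ≤ k ≤ dim A`. -/
def TateIsoTimes : Prop :=
  ∀ (Λ : Type) [Field Λ] [CharZero Λ] (A : AbelianData Λ) (s : ℕ), IsAbelian A q s f →
    ∀ (L : Type) [Field L] [CharZero L] (V : TateData A L), IsTateTheory V (q ^ s) →
      DiagFrom p Ω V.R → ∀ j : ℤ,
        (FinGenM V j ↔ ∀ k : ℕ, k ≤ A.dim → FinGenN V (j - k)) ∧
        (TensorInjM V j ↔ ∀ k : ℕ, k ≤ A.dim → TensorInjN V (j - k)) ∧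
        (TateIsoM V (q ^ s) j ↔ ∀ k : ℕ, k ≤ A.dim → TateIsoN V (q ^ s) (j - k))

end

end Pool.Agent.V1168.EV
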