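import Mathlib
import Pool.Agent.V1168.EV.Props
import Pool.Agent.V1168.BB.MurreDefs

/-!
# Murre's conjectures for products with all varieties: definitions
-/

set_option autoImplicit false

namespace Pool.Agent.V1168.EV

open Polynomial Module Pool.Agent.Y156.L Pool.Agent.Y1.CT Pool.Agent.V1168.BB

section

variable {I : Type} (p : ℕ) (Ω : Finset ℂ) (q : ℕ) (f : I → ℤ[X])

/-- `MurreTimes p Ω q f`: for every abelian variety `A` as in `IsAbelian` over the field with
`Q = q ^ s` elements there are finitely many products `D t` of `c t` divisor classes on `A`, such that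
for every smooth projective variety `Y` over every field `k` which contains the field with `Q`
elements, with the properties `IsMurreTheory`, such that the absolute Frobenius endomorphism of `Y`
satisfies on each `CH^j(A × Y)` a nonzero rational polynomial with roots that come
from `Ω` (`DiagFrom`): every element of `CH^n(A × Y)` is in a unique way the sum of the products
of the `D t` with elements of `CH^(n - c t)(Y)`, and `MurreConclusion` holds for every Chow–Künneth
decomposition of `Y`. -/
def MurreTimes : Prop :=
  ∀ (Λ : Type) [Field Λ] [CharZero Λ] (A : AbelianData Λ) (s : ℕ), IsAbelian A q s f →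
    ∃ (J : Type) (_ : Fintype J) (c : J → ℕ) (D : J → A.CH), IsFamily A c D ∧
      ∀ (T : RelData A) (V : CorrData T), IsMurreTheory V (q ^ s) → DiagFrom p Ω T →
        (∀ (n : ℤ) (x : T.M), T.DegM (2 * n) n x → ∃! z : J → T.N,
          (∀ t, T.DegN (2 * (n - c t)) (n - c t) (z t)) ∧ x = ∑ t, T.mul (D t) (z t)) ∧
        ∀ (d : ℕ) (πY : ℕ → V.CY), IsDecomposition V.cohN V.grH d πY →
          MurreConclusion V c D d πY

end

end Pool.Agent.V1168.EV
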