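import Mathlib
import Pool.Agent.V1168.EV.Base
import Pool.Agent.V1168.EV.MurreDefs
import Pool.Agent.V1168.BB.Murre

/-!
# Murre's conjectures for products with all varieties
-/

set_option autoImplicit false
set_option linter.unusedSectionVars false
set_option linter.unusedVariables false

namespace Pool.Agent.V1168.EV

open Module Polynomial Pool.Agent.Y156.L Pool.Agent.W484.HS Pool.Agent.Y1.CT Pool.Agent.V1168.UN
  Pool.Agent.V1168.BB

section

variable {I : Type} {p : ℕ} {Ω : Finset ℂ} {q : ℕ} {f : I → ℤ[X]}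

theorem murreTimes (hq : 1 < q) (hR : NoRel f q (From p Ω)) : MurreTimes p Ω q f := by
  classical
  intro Λ _ _ A s hA
  obtain ⟨J, hJ, c, D, E, hF, hdual, hQ, hmain⟩ := exists_classes hq hR hA
  refine ⟨J, hJ, c, D, hF, fun T V hVT hK => ?_⟩
  have hT := hVT.chow
  have hexp : ∀ (n : ℤ) (x : T.M), T.DegM (2 * n) n x →
      x = ∑ t, T.times (D t) (T.pair (E t) x) := by
    intro n x hx
    exact (hmain _ (isRel_diag hT) (from_diag hK)).1 (2 * n) n x
      (isPure_diag hVT.pure (2 * n) n x ((degM_diag (T := T) n x).2 hx))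
  refine ⟨fun n x hx => ⟨fun t => T.pair (E t) x, ⟨fun t => ?_, hexp n x hx⟩, ?_⟩,
    fun d πY hπ => murreConclusion hA hF hdual hVT hexp d πY hπ⟩
  · have h1 := hT.pair_mem (c := c t) (by have := hdual.le t; omega) (hdual.right t) hx
    rw [show 2 * (n - (c t : ℤ)) = 2 * n - 2 * c t by ring]
    exact h1
  · rintro z ⟨-, hz⟩
    funext t
    rw [hz]
    exact (pair_sum hT hdual t z).symm

end

end Pool.Agent.V1168.EV
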