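import Mathlib
import Pool.Agent.V1168.EV.Props
import Pool.Agent.V1168.UN.Props

/-!
# Higher Chow groups and cohomology for products with all varieties: properties
-/

set_option autoImplicit false

namespace Pool.Agent.V1168.EV

open Polynomial Pool.Agent.Y156.L Pool.Agent.Y1.CT Pool.Agent.V1168.UN

section

variable {I : Type} (p : ℕ) (Ω : Finset ℂ) (q : ℕ) (f : I → ℤ[X])

/-- `TateHigher p Ω q f`: for every abelian variety `A` as in `IsAbelian` there are finitely
many products `D t` of divisor classes on `A`, such that for all `R` (cohomology) relative to any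
scheme `U`, with the formal properties and Frobenius eigenvalues that come from `Ω`: the Kunneth formula holds,
and for all `T` (motivic cohomology) relative to `U` with a regulator to `R`, and all `i`, `j`, the
regulator of `A × U` in bidegree `(i, j)` is onto the Frobenius invariants if and only if those of
`U` in the bidegrees `(i - 2 k, j - k)`, `0 ≤ k ≤ dim A`, are. -/
def TateHigher : Prop :=
  ∀ (Λ : Type) [Field Λ] [CharZero Λ] (A : AbelianData Λ) (s : ℕ), IsAbelian A q s f →
    ∃ (J : Type) (_ : Fintype J) (c : J → ℕ) (D : J → A.CH), IsFamily A c D ∧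
      ∀ R : RelData A, IsRel (q ^ s) R → FrobeniusFrom p Ω R → R.Kunneth (q ^ s) c D ∧
        ∀ (T : RelData A) (ρ : Regulator T R), IsRel (q ^ s) T → IsRegulator ρ →
          ∀ i j : ℤ, OntoM ρ (q ^ s) i j ↔
            ∀ k : ℕ, k ≤ A.dim → OntoN ρ (q ^ s) (i - 2 * k) (j - k)

/-- `BeilinsonHigher p Ω q f`: for every abelian variety `A` as in `IsAbelian` there are
finitely many products `D t` of divisor classes on `A`, such that for all `T` (motivic cohomology)
relative to any scheme `U`, with the formal properties, pure and with Frobenius eigenvalues that come from `Ω`: the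
Kunneth formula holds, and for all `R` (cohomology) relative to `U` with a regulator from `T` to `R`,
and all `i`, `j`, the regulator of `A × U` in bidegree `(i, j)` is injective if and only if those
of `U` in the bidegrees `(i - 2 k, j - k)`, `0 ≤ k ≤ dim A`, are. -/
def BeilinsonHigher : Prop :=
  ∀ (Λ : Type) [Field Λ] [CharZero Λ] (A : AbelianData Λ) (s : ℕ), IsAbelian A q s f →
    ∃ (J : Type) (_ : Fintype J) (c : J → ℕ) (D : J → A.CH), IsFamily A c D ∧
      ∀ T : RelData A, IsRel (q ^ s) T → T.IsPure (q ^ s) → FrobeniusFrom p Ω T →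
        T.Kunneth (q ^ s) c D ∧
        ∀ (R : RelData A) (ρ : Regulator T R), IsRel (q ^ s) R → IsRegulator ρ →
          ∀ i j : ℤ, InjectiveM ρ i j ↔ ∀ k : ℕ, k ≤ A.dim → InjectiveN ρ (i - 2 * k) (j - k)

/-- `ParshinHigher p Ω q f`: for every abelian variety `A` as in `IsAbelian` there are
finitely many products `D t` of divisor classes on `A`, such that for all `T` (motivic cohomology)
relative to any scheme `Z`, with the formal properties, pure and with Frobenius eigenvalues that come from `Ω`: the
Kunneth formula holds, and for all `i`, `j` the group `H^i(A × Z, j)` is zero if and only if the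
groups `H^(i - 2 k)(Z, j - k)`, `0 ≤ k ≤ dim A`, are zero. -/
def ParshinHigher : Prop :=
  ∀ (Λ : Type) [Field Λ] [CharZero Λ] (A : AbelianData Λ) (s : ℕ), IsAbelian A q s f →
    ∃ (J : Type) (_ : Fintype J) (c : J → ℕ) (D : J → A.CH), IsFamily A c D ∧
      ∀ T : RelData A, IsRel (q ^ s) T → T.IsPure (q ^ s) → FrobeniusFrom p Ω T →
        T.Kunneth (q ^ s) c D ∧
        ∀ i j : ℤ, (∀ m, T.DegM i j m → m = 0) ↔
          ∀ k : ℕ, k ≤ A.dim → ∀ n, T.DegN (i - 2 * k) (j - k) n → n = 0

/-- `PerfectHigher p Ω q f`: for every abelian variety `A` as in `IsAbelian` there are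
finitely many products `D t` of divisor classes on `A`, such that for all `T` (motivic cohomology)
relative to any smooth projective scheme `Z` of any dimension `d`, with the formal properties, pure
and with Frobenius eigenvalues that come from `Ω`: the Kunneth formula holds, and for all `i`, `j` the cup product
pairing `H^i(A × Z, j) × H^(2 (dim A + d) - i)(A × Z, dim A + d - j) → ℚ` is perfect if and only if
the pairings `H^(i - 2 k)(Z, j - k) × H^(2 d - (i - 2 k))(Z, d - (j - k)) → ℚ`, `0 ≤ k ≤ dim A`, are
perfect. -/
def PerfectHigher : Prop :=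
  ∀ (Λ : Type) [Field Λ] [CharZero Λ] (A : AbelianData Λ) (s : ℕ), IsAbelian A q s f →
    ∃ (J : Type) (_ : Fintype J) (c : J → ℕ) (D : J → A.CH), IsFamily A c D ∧
      ∀ T : RelData A, IsRel (q ^ s) T → T.IsPure (q ^ s) → FrobeniusFrom p Ω T →
        T.Kunneth (q ^ s) c D ∧ ∀ B : CupProduct T, IsCupProduct B →
          ∀ d i j : ℤ, PerfectM B (A.dim + d) i j ↔
            ∀ k : ℕ, k ≤ A.dim → PerfectN B d (i - 2 * k) (j - k)

/-- `SemisimpleHigher p Ω q f`: for every abelian variety `A` as in `IsAbelian` and all `R`
(cohomology) relative to any scheme `U`, with the formal properties and Frobenius eigenvalues that come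
from `Ω`, and all `i`, `j`: the eigenvalue `Q ^ j` of Frobenius on `H^i(A × U, j)` is semisimple if and
only if the eigenvalues `Q ^ (j - k)` on `H^(i - 2 k)(U, j - k)`, `0 ≤ k ≤ dim A`, are. -/
def SemisimpleHigher : Prop :=
  ∀ (Λ : Type) [Field Λ] [CharZero Λ] (A : AbelianData Λ) (s : ℕ), IsAbelian A q s f →
    ∀ R : RelData A, IsRel (q ^ s) R → PreservesDegrees R → FrobeniusFrom p Ω R →
      ∀ i j : ℤ, SemisimpleM R (q ^ s) i j ↔
        ∀ k : ℕ, k ≤ A.dim → SemisimpleN R (q ^ s) (i - 2 * k) (j - k)

/-- `TateBeilinsonHigher p Ω q f`: for every abelian variety `A` as in `IsAbelian`, all `T` (motivic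
homology or cohomology) and `R` (`ℓ`-adic homology or cohomology) relative to any scheme `U`, with
the formal properties, `T` pure, both with Frobenius eigenvalues that come from `Ω`, and a regulator from `T` to `R`,
and all `i`, `j`: the regulator of `A × U` in bidegree `(i, j)` is a bijection onto the Frobenius
invariants and the eigenvalue `Q ^ j` of Frobenius on `R^i(A × U, j)` is semisimple, if and only if
the same is true for `U` in the bidegrees `(i - 2 k, j - k)`, `0 ≤ k ≤ dim A`. -/
def TateBeilinsonHigher : Prop :=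
  ∀ (Λ : Type) [Field Λ] [CharZero Λ] (A : AbelianData Λ) (s : ℕ), IsAbelian A q s f →
    ∀ (T R : RelData A) (ρ : Regulator T R), IsRel (q ^ s) T → T.IsPure (q ^ s) →
      FrobeniusFrom p Ω T → IsRel (q ^ s) R → PreservesDegrees R → FrobeniusFrom p Ω R →
      IsRegulator ρ → ∀ i j : ℤ,
        (BijectiveM ρ (q ^ s) i j ∧ SemisimpleM R (q ^ s) i j) ↔ ∀ k : ℕ, k ≤ A.dim →
          BijectiveN ρ (q ^ s) (i - 2 * k) (j - k) ∧ SemisimpleN R (q ^ s) (i - 2 * k) (j - k)

end

end Pool.Agent.V1168.EV
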