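import Mathlib
import Pool.Agent.V1168.EV.MotDefs
import Pool.Agent.V1168.UN.Mot

/-!
# Products with all varieties: Chow groups, K-groups, noncommutative motives: the proofs
-/

set_option autoImplicit false
set_option linter.unusedSectionVars false
set_option linter.unusedVariables false

open CategoryTheory AlgebraicGeometry

universe u v w

namespace Pool.Agent.V1168.EV

open Module Polynomial Pool.Agent.H914 Pool.Agent.H914.VarClass Pool.Agent.H914.VarClass.Obj
  Pool.Agent.W492.BB Pool.Agent.W550.Corr Pool.Agent.W484.CK Pool.Agent.Y1.CT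

variable {I : Type} {p : ℕ} {Ω : Finset ℂ} {q : ℕ} (hq : 1 < q) {f : I → ℤ[X]}
  (hR : NoRel f q (From p Ω))

include hq hR

theorem pairingLines : PairingLines p Ω q f := by
  intro k _ 𝒱 C _ F _ _ _ H _ s A Z πA πZ hsit hF
  obtain ⟨J, hJ, deg, D, E', hdual, hD, hK⟩ := kunneth_main hq hR
    (isStandard_bridge hsit.standard) hsit.pos (isAbelian_bridge hsit.abelian)
    (πZ := πZ) hsit.isFrom (nilpotence_bridge hsit.nilpotence)
  have h1 : W484.CH.HasKunneth (W484.CH.chowData C) A Z deg D := W484.CH.hasKunneth_of hdual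
    W484.CH.chowData_isCorrTheory (hK (W484.CH.chowData C) W484.CH.chowData_isCorrTheory
      (W484.CH.chowData_actsAsPower (isFrobenius_bridge hF)))
  refine ⟨⟨J, hJ, deg, D, hD, fun i y hy => ?_⟩, W484.CH.ratEqNum_iff hdual h1, fun n => ?_⟩
  · obtain ⟨z, ⟨hz1, hz2⟩, hz3⟩ := h1 i y hy
    have h2 : ∀ z' : J → C.A Z, ∑ j, times C (D j) (z' j) =
        ∑ j, (W484.CH.chowData C).act (W484.CH.extBy C Z (D j)) (z' j) := fun z' =>
      Finset.sum_congr rfl fun j _ => (W484.CH.act_extBy C (D j) (z' j)).symm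
    refine ⟨z, ⟨hz1, ?_⟩, fun z' hz' => hz3 z' ⟨hz'.1, ?_⟩⟩
    · rw [h2 z]
      exact hz2
    · rw [← h2 z']
      exact hz'.2
  · exact Y154.BQ.perfectIn_prod_iff' (isStandard_bridge hsit.standard) hdual h1 hD n

theorem kGroupsLines : KGroupsLines p Ω q f := by
  intro k _ 𝒱 C _ F _ _ _ H _ s A Z πA πZ hsit
  obtain ⟨J, hJ, deg, D, E', hdual, hD, hK⟩ := kunneth_main hq hR
    (isStandard_bridge hsit.standard) hsit.pos (isAbelian_bridge hsit.abelian)
    (πZ := πZ) hsit.isFrom (nilpotence_bridge hsit.nilpotence)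
  refine ⟨J, hJ, deg, D, hD, fun T hKT hπ => ?_⟩
  have hT := hKT.motivic
  have h1 : W484.CH.HasKunneth (toCorr T) A Z deg D := W484.CH.hasKunneth_of hdual
    (toCorr_isCorrTheory hT) (hK (toCorr T) (toCorr_isCorrTheory hT) (toCorr_actsAsPower hπ))
  refine ⟨h1, ?_⟩
  rw [Y159.Par.parshin_iff hKT, Y159.Par.parshin_iff hKT]
  refine forall_congr' fun n => ?_
  rw [vanishes_iff, vanishes_iff]
  exact W484.CH.vanish_iff (toCorr_isCorrTheory hT) h1 n

theorem ncParshinLines : NCParshinLines p Ω q f := by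
  intro k _ 𝒱 C _ hI F _ _ _ H _ s A Z πA πZ hsit
  obtain ⟨J, hJ, deg, D, E', hne, hdual, hD, hE, hK⟩ := kunneth_both hq hR
    (isStandard_bridge hsit.standard) hsit.pos (isAbelian_bridge hsit.abelian)
    (πZ := πZ) hsit.isFrom (nilpotence_bridge hsit.nilpotence)
  refine ⟨J, hJ, deg, D, hD, fun T hKT e he => ?_⟩
  have hT' := fun n i m hm => (hK (toCorr (T n)) (toCorr_isCorrTheory (hKT.motivic n))
    (toCorr_actsAsPower (hKT.frobenius n)) i m hm).1
  have h2 := fun n => trivial_iff hI (hKT.motivic n) hdual (hKT.exhausted n) (hT' n) e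
  refine ⟨fun n => kunnethFor_of hI (hKT.motivic n) hdual (hKT.exhausted n) (hT' n) e, h2, ?_⟩
  exact forall_congr' fun n => forall_congr' fun _ => h2 n

theorem ncNumLines : NCNumLines p Ω q f := by
  intro k _ 𝒱 C _ hI F _ _ _ H _ s A Z πA πZ hsit hF
  obtain ⟨J, hJ, deg, D, E', hne, hdual, hD, hE, hK⟩ := kunneth_both hq hR
    (isStandard_bridge hsit.standard) hsit.pos (isAbelian_bridge hsit.abelian)
    (πZ := πZ) hsit.isFrom (nilpotence_bridge hsit.nilpotence)
  have hT' := fun i m hm => (hK (toCorr (chowMot C)) (toCorr_isCorrTheory chowMot_isMotivic)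
    (toCorr_actsAsPower (chowMot_actsAsPower hF)) i m hm).1
  exact ⟨J, hJ, deg, D, hD, fun e _ => ⟨kzeroKunneth_of hdual hI hT' e,
    nondegenerate_iff hdual hI hT' e⟩⟩

theorem ncHomLines : NCHomLines p Ω q f := by
  intro k _ 𝒱 C _ hI F _ _ _ H _ s A Z πA πZ hsit
  obtain ⟨J, hJ, deg, D, E', hne, hdual, hD, hE, hK⟩ := kunneth_eigen hq hR
    (isStandard_bridge hsit.standard) hsit.pos (isAbelian_bridge hsit.abelian)
    (πZ := πZ) hsit.isFrom
  have hK' := fun i w hw => (hK i w hw).1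
  exact ⟨J, hJ, deg, D, hD, fun e he => ⟨homKunneth_of hdual hsit.frobenius hK' hI he,
    homEqNum_iff hdual hsit.frobenius hK' hI he⟩⟩

theorem ncTateLines : NCTateLines p Ω q f := by
  intro k _ 𝒱 C _ hI F _ _ _ H _ s A Z πA πZ hsit
  obtain ⟨J, hJ, deg, D, E', hne, hdual, hD, hE, hK⟩ := kunneth_eigen hq hR
    (isStandard_bridge hsit.standard) hsit.pos (isAbelian_bridge hsit.abelian)
    (πZ := πZ) hsit.isFrom
  have hK' := fun i w hw => (hK i w hw).1
  have hQ : q ^ s ≠ 0 := pow_ne_zero _ (by omega)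
  have hπA := isFrobenius_bridge hsit.abelian.frobenius
  exact ⟨J, hJ, deg, D, hD, fun e he => ⟨tateKunneth_of hI hdual hQ hπA hK' e,
    ncTate_iff hI hdual hQ hπA hK' he⟩⟩

end Pool.Agent.V1168.EV
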