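import Mathlib
import Pool.Agent.V1168.EV.MurreDefs

/-!
# Murre's conjectures for motives: definitions

In the question about motives (B) is only the statement that `π^j` operates as zero on `CH^n` for
`j > 2 n`, that is `F^0 CH^n = CH^n`; and (D), together with (B), is equivalent to `MurreD`:
`F^1 CH^n` is the group of the homologically trivial cycles (as `π^j CH^n` is homologically trivial for
`j ≠ 2 n`).
-/

set_option autoImplicit false

namespace Pool.Agent.V1168.EV

open Polynomial Module Pool.Agent.Y156.L Pool.Agent.Y1.CT Pool.Agent.V1168.BB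

section

variable {Λ : Type} [Field Λ] {A : AbelianData Λ} {T : RelData A} (V : CorrData T)
  (πY : ℕ → V.CY)

/-- (B) for `Y` in codimension `n`: `CH_l(M_i) = 0` for `i < 2 l`, that is `F^0 CH^n(Y) = CH^n(Y)`. -/
def WeakBN (n : ℤ) : Prop := V.filtN πY n 0 = T.grN (2 * n) n

/-- (B) for `A × Y` and the product decomposition in codimension `n`: `F^0 CH^n = CH^n`. -/
def WeakBM (n : ℤ) : Prop := V.filtM πY n 0 = T.grM (2 * n) n

end

section

variable {I : Type} (p : ℕ) (Ω : Finset ℂ) (q : ℕ) (f : I → ℤ[X])

/-- `MurreMotiveTimes p Ω q f`: for every abelian variety `A` as in `IsAbelian` over the field with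
`Q = q ^ s` elements there are finitely many products `D t` of `c t` divisor classes on `A`, such that
for every smooth projective variety `Y` over every field `k` which contains the field with `Q`
elements, with the properties `IsMurreTheory`, such that the absolute Frobenius endomorphism of `Y`
satisfies on each `CH^j(A × Y)` a nonzero rational polynomial with roots from `Ω` (`DiagFrom`): every
element of `CH^n(A × Y)` is in a unique way the sum of the products of the `D t` with elements of
`CH^(n - c t)(Y)`; and for every Chow–Künneth decomposition of `Y`: `MurreConclusion` holds; (B) holds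
for `A × Y` in codimension `n` if and only if it holds for `Y` in the codimensions `n - k`,
`0 ≤ k ≤ dim A`; and `F^ν CH^n(A × Y) = 0` if and only if `F^ν CH^(n - k)(Y) = 0` for `0 ≤ k ≤ dim A`. -/
def MurreMotiveTimes : Prop :=
  ∀ (Λ : Type) [Field Λ] [CharZero Λ] (A : AbelianData Λ) (s : ℕ), IsAbelian A q s f →
    ∃ (J : Type) (_ : Fintype J) (c : J → ℕ) (D : J → A.CH), IsFamily A c D ∧
      ∀ (T : RelData A) (V : CorrData T), IsMurreTheory V (q ^ s) → DiagFrom p Ω T →
        (∀ (n : ℤ) (x : T.M), T.DegM (2 * n) n x → ∃! z : J → T.N,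
          (∀ t, T.DegN (2 * (n - c t)) (n - c t) (z t)) ∧ x = ∑ t, T.mul (D t) (z t)) ∧
        ∀ (d : ℕ) (πY : ℕ → V.CY), IsDecomposition V.cohN V.grH d πY →
          MurreConclusion V c D d πY ∧
          (∀ n : ℤ, WeakBM V πY n ↔ ∀ k : ℕ, k ≤ A.dim → WeakBN V πY (n - k)) ∧
          ∀ n ν : ℤ, V.filtM πY n ν = ⊥ ↔ ∀ k : ℕ, k ≤ A.dim → V.filtN πY (n - k) ν = ⊥

end

end Pool.Agent.V1168.EV
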