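import Mathlib
import Pool.Agent.V1168.EV.Murre
import Pool.Agent.V1168.EV.MurreMotDefs

/-!
# Murre's conjectures for motives
-/

set_option autoImplicit false
set_option linter.unusedSectionVars false
set_option linter.unusedVariables false

namespace Pool.Agent.V1168.EV

open Module Polynomial Pool.Agent.Y156.L Pool.Agent.W484.HS Pool.Agent.Y1.CT Pool.Agent.V1168.UN
  Pool.Agent.V1168.BB

section

variable {I : Type} {p : ℕ} {Ω : Finset ℂ} {q : ℕ} {f : I → ℤ[X]}

theorem murreMotiveTimes (hq : 1 < q) (hR : NoRel f q (From p Ω)) :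
    MurreMotiveTimes p Ω q f := by
  classical
  intro Λ _ _ A s hA
  obtain ⟨J, hJ, c, D, E, hF, hdual, hQ, hmain⟩ := exists_classes hq hR hA
  refine ⟨J, hJ, c, D, hF, fun T V hVT hK => ?_⟩
  have hT := hVT.chow
  have hexp : ∀ (n : ℤ) (x : T.M), T.DegM (2 * n) n x →
      x = ∑ t, T.times (D t) (T.pair (E t) x) := by
    intro n x hx
    exact (hmain _ (isRel_diag hT) (from_diag hK)).1 (2 * n) n x
      (isPure_diag hVT.pure (2 * n) n x ((degM_diag (T := T) n x).2 hx))
  have htimes : ∀ (t : J) (n : ℤ) (z : T.N), z ∈ T.grN (2 * (n - c t)) (n - c t) →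
      T.times (D t) z ∈ T.grM (2 * n) n := by
    intro t n z hz
    have h1 := hT.times_mem (hdual.left t) hz
    rwa [show 2 * (n - (c t : ℤ)) + 2 * c t = 2 * n by ring, sub_add_cancel] at h1
  have hpair : ∀ (t : J) (n : ℤ) (x : T.M), x ∈ T.grM (2 * n) n →
      T.pair (E t) x ∈ T.grN (2 * (n - c t)) (n - c t) := by
    intro t n x hx
    have h1 := hT.pair_mem (c := c t) (by have := hdual.le t; omega) (hdual.right t) hx
    rwa [show 2 * n - 2 * (c t : ℤ) = 2 * (n - c t) by ring] at h1
  refine ⟨fun n x hx => ⟨fun t => T.pair (E t) x, ⟨fun t => ?_, hexp n x hx⟩, ?_⟩,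
    fun d πY hπ => ?_⟩
  · exact hpair t n x hx
  · rintro z ⟨-, hz⟩
    funext t
    rw [hz]
    exact (pair_sum hT hdual t z).symm
  have hM := murreConclusion hA hF hdual hVT hexp d πY hπ
  have hle : ∀ (n ν : ℤ) (x : T.N), x ∈ V.filtN πY n ν → x ∈ T.grN (2 * n) n := by
    intro n ν x hx
    obtain ⟨y, hy, rfl⟩ := hx
    have h1 : ∀ k : ℕ, ∀ y ∈ T.grN (2 * n) n, partialSum V.actN πY k y ∈ T.grN (2 * n) n := by
      intro k y hy
      unfold partialSum
      rw [LinearMap.sum_apply]
      exact Submodule.sum_mem _ fun i _ => hVT.correspondences.actN_mem (πY i) hy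
    exact h1 _ y hy
  -- the coefficients of an element of the filtration
  have hcoef : ∀ (n ν : ℤ) (x : T.M), x ∈ V.filtM πY n ν → ∀ t,
      T.pair (E t) x ∈ V.filtN πY (n - c t) ν := by
    intro n ν x hx t
    obtain ⟨z, hz, rfl⟩ := (hM.filtration n ν x).1 hx
    have h1 := pair_sum hT hdual t z
    have h2 : T.pair (E t) (∑ t, T.mul (D t) (z t)) = z t := h1
    rw [h2]
    exact hz t
  have hback : ∀ (n ν : ℤ) (x : T.M), x ∈ T.grM (2 * n) n →
      (∀ t, T.pair (E t) x ∈ V.filtN πY (n - c t) ν) → x ∈ V.filtM πY n ν := by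
    intro n ν x hx h
    exact (hM.filtration n ν x).2 ⟨fun t => T.pair (E t) x, h, hexp n x hx⟩
  have hone : ∀ (t : J) (z : T.N), T.pair (E t) (T.times (D t) z) = z := by
    intro t z
    have h1 := dualpair hT hdual t t z
    rwa [if_pos rfl] at h1
  have hzero : ∀ (n ν : ℤ) (t : J) (z : T.N), z ∈ V.filtN πY (n - c t) ν →
      T.times (D t) z ∈ V.filtM πY n ν := by
    intro n ν t z hz
    refine hback n ν _ (htimes t n z (hle _ _ _ hz)) fun u => ?_
    have h1 := dualpair hT hdual t u z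
    rw [h1]
    split_ifs with hu
    · subst hu
      exact hz
    · exact Submodule.zero_mem _
  refine ⟨hM, fun n => ⟨fun h k hk => ?_, fun h => ?_⟩, fun n ν => ⟨fun h k hk => ?_, fun h => ?_⟩⟩
  · obtain ⟨t, rfl⟩ := hF.exists_eq k hk
    refine le_antisymm (fun x hx => hle _ _ x hx) fun y hy => ?_
    have h1 : T.times (D t) y ∈ V.filtM πY n 0 := by
      unfold WeakBM at h
      rw [h]
      exact htimes t n y hy
    have h2 := hcoef n 0 _ h1 t
    rwa [hone t y] at h2
  · refine le_antisymm (fun x hx => ?_) fun x hx => ?_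
    · obtain ⟨z, hz, rfl⟩ := (hM.filtration n 0 x).1 hx
      exact Submodule.sum_mem _ fun t _ => htimes t n _ (hle _ _ _ (hz t))
    · refine hback n 0 x hx fun t => ?_
      have h1 := h (c t) (hF.le t)
      unfold WeakBN at h1
      rw [h1]
      exact hpair t n x hx
  · obtain ⟨t, rfl⟩ := hF.exists_eq k hk
    refine (Submodule.eq_bot_iff _).2 fun y hy => ?_
    have h1 := hzero n ν t y hy
    rw [h] at h1
    have h2 : T.times (D t) y = 0 := (Submodule.mem_bot ℚ).1 h1
    have h3 := hone t y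
    rw [h2, map_zero] at h3
    exact h3.symm
  · refine (Submodule.eq_bot_iff _).2 fun x hx => ?_
    obtain ⟨z, hz, rfl⟩ := (hM.filtration n ν x).1 hx
    refine Finset.sum_eq_zero fun t _ => ?_
    have h1 := hz t
    rw [h (c t) (hF.le t)] at h1
    have h2 : z t = 0 := (Submodule.mem_bot ℚ).1 h1
    rw [h2]
    exact map_zero (T.times (D t))

end

end Pool.Agent.V1168.EV
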