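import Mathlib
import Pool.Agent.V1168.EV.Higher
import Pool.Agent.V1168.EV.CycleDefs

/-!
# Cycle class maps for products with all varieties: proofs
-/

set_option autoImplicit false
set_option linter.unusedSectionVars false
set_option linter.unusedVariables false

namespace Pool.Agent.V1168.EV

open Module Polynomial Pool.Agent.Y156.L Pool.Agent.W484.HS Pool.Agent.Y1.CT Pool.Agent.V1168.UN

section main

variable {I : Type} {p : ℕ} {Ω : Finset ℂ} {q : ℕ} (hq : 1 < q) {f : I → ℤ[X]}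
  (hR : NoRel f q (From p Ω))

include hq hR

theorem cycleMapTimes : CycleMapTimes p Ω q f := by
  intro Λ _ _ A s hA T R ρ hT hpure hKT hR' hK hc c
  obtain ⟨J, hJ, d, D, E', hF, hdual, hQ, hmain⟩ := exists_classes hq hR hA
  have hT1 := isRel_diag hT
  have hR1 := isRel_diag hR'
  have hc1 := isRegulator_diag hc
  have h1 := tate_iff hF hdual hQ hT1 hR1 hc1 (hmain _ hR1 (from_diag hK)).1 (2 * c) c
  have h2 := beilinson_iff hF hdual hT1 hc1 (fun i j m hm =>
    (hmain _ hT1 (from_diag hKT)).1 i j m (isPure_diag hpure i j m hm)) (2 * c) c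
  rw [← bijectiveM_diag]
  unfold BijectiveM
  rw [h1, h2]
  have h3 : ∀ k : ℕ, (2 * c - 2 * k : ℤ) = 2 * (c - k) := fun k => by ring
  constructor
  · rintro ⟨h4, h5⟩ k hk
    have h6 := h4 k hk
    have h7 := h5 k hk
    rw [h3] at h6 h7
    exact (bijectiveN_diag ρ _).1 ⟨h6, h7⟩
  · intro h4
    refine ⟨fun k hk => ?_, fun k hk => ?_⟩
    · rw [h3]
      exact ((bijectiveN_diag ρ _).2 (h4 k hk)).1
    · rw [h3]
      exact ((bijectiveN_diag ρ _).2 (h4 k hk)).2

theorem cycleMapSemisimpleTimes : CycleMapSemisimpleTimes p Ω q f := by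
  intro Λ _ _ A s hA R hR' hP hK c
  have h3 : ∀ k : ℕ, (2 * c - 2 * k : ℤ) = 2 * (c - k) := fun k => by ring
  have hss : SemisimpleM R (q ^ s) (2 * c) c ↔
      ∀ k : ℕ, k ≤ A.dim → SemisimpleN R (q ^ s) (2 * (c - k)) (c - k) := by
    have h1 := semisimpleHigher hq hR Λ A s hA (diag R) (isRel_diag hR')
      (preservesDegrees_diag hP) (from_diag hK) (2 * c) c
    rw [semisimpleM_diag] at h1
    rw [h1]
    refine forall_congr' fun k => forall_congr' fun hk => ?_
    rw [h3]
    exact semisimpleN_diag _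
  refine ⟨hss, fun T ρ hT hpure hKT hc => ?_⟩
  rw [cycleMapTimes hq hR Λ A s hA T R ρ hT hpure hKT hR' hK hc c, hss]
  constructor
  · rintro ⟨h4, h5⟩ k hk
    exact ⟨h4 k hk, h5 k hk⟩
  · intro h4
    exact ⟨fun k hk => (h4 k hk).1, fun k hk => (h4 k hk).2⟩

end main

end Pool.Agent.V1168.EV
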