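import Mathlib
import Pool.Agent.V1168.EV.SpanDefs
import Pool.Agent.V1168.EV.IsoDefs

/-!
# The conjecture of Tate for singular and open varieties: definitions

Let `X` be a scheme, separated and of finite type over a field `k`. The theories of the other files are
indexed by the codimension. Here we fix an integer `e` (for instance the dimension of `X`), and put
`T^(2 c)(X, c) = CH_(e - c)(X)` and `R^(2 c)(X, c) = H_(2 (e - c))(X, ℚ_ℓ(e - c))` (the étale
homology over the separable closure), and for `A × X` the same with `e + dim A`. So the product with a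
cycle of codimension `c` on `A` maps `CH_j(X)` to `CH_(j + dim A - c)(A × X)`.
-/

set_option autoImplicit false

namespace Pool.Agent.V1168.EV

open Polynomial Module Pool.Agent.Y156.L Pool.Agent.Y1.CT Pool.Agent.V1168.BB

section

variable {Λ : Type} [Field Λ] {A : AbelianData Λ} {L : Type} [Field L] (V : SpanData A L)

/-- The elements of `H_(2 j)(X, ℚ_ℓ(j))` fixed by the Galois group. -/
def InvariantN (Q : ℕ) (e j : ℤ) (w : V.R.N) : Prop := V.R.InvN Q (2 * (e - j)) (e - j) w

/-- The elements of `H_(2 j)(A × X, ℚ_ℓ(j))` fixed by the Galois group. -/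
def InvariantM (Q : ℕ) (e j : ℤ) (w : V.R.M) : Prop :=
  V.R.InvM Q (2 * (e + A.dim - j)) (e + A.dim - j) w

/-- **The surjectivity of the cycle class map** `CH_j(X) ⊗ ℚ_ℓ → H_(2 j)(X, ℚ_ℓ(j))^G`: each invariant
element is in the `L`-span of the classes of the cycles of dimension `j`. -/
def SurjectiveN (Q : ℕ) (e j : ℤ) : Prop := TateN V Q (e - j)

/-- The surjectivity of the cycle class map of `A × X` in dimension `j`. -/
def SurjectiveM (Q : ℕ) (e j : ℤ) : Prop := TateM V Q (e + A.dim - j)

end

section

variable {Λ : Type} [Field Λ] {A : AbelianData Λ} {L : Type} [Field L] (V : TateData A L)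

/-- The group `B_j(X)` of the classes of the cycles of dimension `j` (with integral coefficients,
modulo torsion) is finitely generated. -/
def FinGenDimN (e j : ℤ) : Prop := FinGenN V (e - j)

/-- The group `B_j(A × X)` is finitely generated. -/
def FinGenDimM (e j : ℤ) : Prop := FinGenM V (e + A.dim - j)

/-- The map from `B_j(X) ⊗ ℚ_ℓ` to the homology is injective. -/
def InjectiveDimN (e j : ℤ) : Prop := TensorInjN V (e - j)

/-- The map from `B_j(A × X) ⊗ ℚ_ℓ` to the homology is injective. -/
def InjectiveDimM (e j : ℤ) : Prop := TensorInjM V (e + A.dim - j)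

/-- **Statement (b)** for `X` in dimension `j`: the group `B_j(X)` is finitely generated, and
`B_j(X) ⊗ ℚ_ℓ → H_(2 j)(X, ℚ_ℓ(j))^G` is injective and surjective. -/
def BijectiveDimN (Q : ℕ) (e j : ℤ) : Prop := TateIsoN V Q (e - j)

/-- **Statement (b)** for `A × X` in dimension `j`. -/
def BijectiveDimM (Q : ℕ) (e j : ℤ) : Prop := TateIsoM V Q (e + A.dim - j)

end

section

variable {I : Type} (p : ℕ) (Ω : Finset ℂ) (q : ℕ) (f : I → ℤ[X])

/-- `TateHomologyTimes p Ω q f`: for every abelian variety `A` as in `IsAbelian` over the field with
`Q = q ^ s` elements there are finitely many products `D t` of `c t` divisor classes on `A`, such that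
for every scheme `X` of finite type over a field `k` finitely generated over the field with `Q`
elements (singular, open), with the data `V` and the properties `IsSpanTheory`, such that the
Frobenius (through `X`) satisfies on each group `R^(2 c)(A × X, c)` a nonzero rational polynomial with
roots from `Ω` (`DiagFrom`), and all `j`:

1. every Galois invariant element of `H_(2 j)(A × X, ℚ_ℓ(j))` is in a unique way the sum of the products
  of the `D t` with Galois invariant elements of the homology of `X` in the dimensions
  `j - (dim A - c t)`;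
2. the cycle class map of `A × X` in dimension `j` is onto the invariants if and only if those of
  `X` in the dimensions `j - k`, `0 ≤ k ≤ dim A`, are. -/
def TateHomologyTimes : Prop :=
  ∀ (Λ : Type) [Field Λ] [CharZero Λ] (A : AbelianData Λ) (s : ℕ), IsAbelian A q s f →
    ∃ (J : Type) (_ : Fintype J) (c : J → ℕ) (D : J → A.CH), IsFamily A c D ∧
      ∀ (L : Type) [Field L] (V : SpanData A L), IsSpanTheory V (q ^ s) →
        DiagFrom p Ω V.R → ∀ e j : ℤ,
          (∀ w, InvariantM V (q ^ s) e j w → ∃! z : J → V.R.N,
            (∀ t, InvariantN V (q ^ s) e (j - (A.dim - c t)) (z t)) ∧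
              w = ∑ t, V.R.mul (D t) (z t)) ∧
          (SurjectiveM V (q ^ s) e j ↔ ∀ k : ℕ, k ≤ A.dim → SurjectiveN V (q ^ s) e (j - k))

/-- `BijectiveHomologyTimes p Ω q f`: the same for integral classes: for every abelian variety `A` as
in `IsAbelian` and every scheme `X` of finite type over a field `k` finitely generated over the field
with `Q` elements (singular, open), with the data `V` (cycles modulo homological equivalence, and
geometric invariants in the homology) and the properties `IsTateTheory`, with Frobenius eigenvalues
from `Ω` (`DiagFrom`), and all `j`: the group `B_j(A × X)` is finitely generated if and only if the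
`B_(j - k)(X)`, `0 ≤ k ≤ dim A`, are; `B_j(A × X) ⊗ ℚ_ℓ` injects into the homology if and only if the
`B_(j - k)(X) ⊗ ℚ_ℓ` do; and statement (b) holds for `A × X` in dimension `j` if and only if it holds
for `X` in the dimensions `j - k`. -/
def BijectiveHomologyTimes : Prop :=
  ∀ (Λ : Type) [Field Λ] [CharZero Λ] (A : AbelianData Λ) (s : ℕ), IsAbelian A q s f →
    ∀ (L : Type) [Field L] [CharZero L] (V : TateData A L), IsTateTheory V (q ^ s) →
      DiagFrom p Ω V.R → ∀ e j : ℤ,
        (FinGenDimM V e j ↔ ∀ k : ℕ, k ≤ A.dim → FinGenDimN V e (j - k)) ∧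
        (InjectiveDimM V e j ↔ ∀ k : ℕ, k ≤ A.dim → InjectiveDimN V e (j - k)) ∧
        (BijectiveDimM V (q ^ s) e j ↔ ∀ k : ℕ, k ≤ A.dim → BijectiveDimN V (q ^ s) e (j - k))

/-- The conjunction of `TateHomologyTimes` and `BijectiveHomologyTimes`. -/
def SingularTateTimes : Prop := TateHomologyTimes p Ω q f ∧ BijectiveHomologyTimes p Ω q f

end

end Pool.Agent.V1168.EV
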