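import Mathlib
import Pool.Agent.V1168.EV.Base
import Pool.Agent.V1168.EV.SouleDefs
import Pool.Agent.V1168.BB.Soule

/-!
# The conjecture of Bloch and Soulé for products with all schemes
-/

set_option autoImplicit false
set_option linter.unusedSectionVars false
set_option linter.unusedVariables false

namespace Pool.Agent.V1168.EV

open Module Polynomial Pool.Agent.Y156.L Pool.Agent.W484.HS Pool.Agent.Y1.CT Pool.Agent.V1168.UN
  Pool.Agent.V1168.BB

section

variable {A : AbelianData ℂ} {I : Type} {f : I → ℤ[X]} {q s : ℕ} {p : ℕ} {Ω : Finset ℂ}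

/-- **The order of the zeta function.** -/
theorem zeta_order (hq : 1 < q) (hR : NoRel f q (From p Ω)) (hA : IsAbelian A q s f)
    {J : Type} [Fintype J] {c : J → ℕ} {D E : J → A.CH}
    (hdual : Pool.Agent.Y156.L.IsDual A c D E)
    (hspan : ∀ (k : ℕ) (x : A.H), A.frobH x = ((q ^ s : ℕ) : ℂ) ^ k • x →
        x ∈ Submodule.span ℂ {a | ∃ j, c j = k ∧ a = A.cl (D j)} ∧ x ∈ A.H1 ^ (2 * k))
    {φ : CohData A} (hφ : IsCoh φ) {U X : PointData}
    (hX : IsProductPoints φ U X) {Λ : ℂ → ℂ} (hΛ : IsContinuation (U.factor (q ^ s)) Λ)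
    (h2 : ∀ z : ℂ, meromorphicOrderAt Λ z ≠ 0 → From p Ω (((q ^ s : ℕ) : ℂ) ^ z)) :
    ∃ Λ', IsContinuation (X.factor (q ^ s)) Λ' ∧ ∀ i : ℤ, meromorphicOrderAt Λ' i =
      ∑ t, meromorphicOrderAt Λ ((i - c t : ℤ) : ℂ) := by
  classical
  have hs := hA.pos
  have hQ1 : 1 < q ^ s := Nat.one_lt_pow hs.ne' hq
  have hQ0 : ((q ^ s : ℕ) : ℂ) ≠ 0 := by exact_mod_cast (by omega : q ^ s ≠ 0)
  obtain ⟨u, hu1, hu2⟩ := exists_log hQ1
  choose r e α hα he using fun a => exists_basis_coh (s := s) (f := f) hA hφ a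
  have hα0 : ∀ a j, α a j ≠ 0 := fun a j => eigen_ne_zero_coh hQ0 hA hφ a (e a) (α a) (he a) j
  refine ⟨_, zeta_continuation hQ1 e α he u (fun a j => hu1 _ (hα0 a j)) hX hΛ, fun i => ?_⟩
  let g : ℕ → ℂ → WithTop ℤ := fun a x =>
    (sgn a : WithTop ℤ) * meromorphicOrderAt Λ ((i : ℂ) - u x)
  have hmer : ∀ (x z : ℂ), MeromorphicAt (fun z => Λ (z - x)) z := by
    intro x z
    rw [meromorphicAt_fun_comp_sub_const_iff_meromorphicAt]
    exact hΛ.1 _
  have h3 : meromorphicOrderAt (fun z => ∏ a ∈ Finset.range (2 * A.dim + 1),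
      ∏ j : Fin (r a), (Λ (z - u (α a j))) ^ sgn a) i =
      ∑ a ∈ Finset.range (2 * A.dim + 1), ∑ j : Fin (r a), g a (α a j) := by
    have h4 := meromorphicOrderAt_fun_prod (x := (i : ℂ)) (s := Finset.range (2 * A.dim + 1))
      (f := fun a z => ∏ j : Fin (r a), (Λ (z - u (α a j))) ^ sgn a)
      (fun a _ => MeromorphicAt.fun_prod fun j _ => (hmer _ _).fun_zpow _)
    refine h4.trans (Finset.sum_congr rfl fun a _ => ?_)
    have h5 := meromorphicOrderAt_fun_prod (x := (i : ℂ)) (s := Finset.univ)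
      (f := fun (j : Fin (r a)) z => (Λ (z - u (α a j))) ^ sgn a)
      (fun j _ => (hmer _ _).fun_zpow _)
    refine h5.trans (Finset.sum_congr rfl fun j _ => ?_)
    have h6 := fun_meromorphicOrderAt_zpow (hmer (u (α a j)) i) (n := sgn a)
    refine h6.trans ?_
    have h7 := meromorphicOrderAt_fun_comp_sub_const_eq_meromorphicOrderAt (f := Λ)
      (c := u (α a j)) (x := (i : ℂ))
    rw [h7]
  -- the vanishing
  have hg : ∀ a j, g a (α a j) ≠ 0 → ∃ k : ℕ, a = 2 * k ∧ α a j = ((q ^ s : ℕ) : ℂ) ^ k := by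
    intro a j h
    have h4 := h2 ((i : ℂ) - u (α a j)) (fun h0 => h (by
      change (sgn a : WithTop ℤ) * meromorphicOrderAt Λ ((i : ℂ) - u (α a j)) = 0
      rw [h0, mul_zero]))
    obtain ⟨M, hM1, hM2⟩ := hα a j
    have h5 : (M.map fun z : Rt f => (z : ℂ) ^ s).prod * ((q ^ s : ℕ) : ℂ) ^ ((i : ℂ) - u (α a j)) =
        ((q : ℂ) ^ s) ^ i := by
      rw [← hM2, Complex.cpow_sub _ _ hQ0, hu1 _ (hα0 a j), mul_div_cancel₀ _ (hα0 a j),
        Complex.cpow_intCast]
      push_cast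
      rfl
    obtain ⟨k, h6, h7⟩ := list_unrel hq hR hs h4 M i h5
    refine ⟨k, by omega, ?_⟩
    rw [hM2, h7]
    push_cast
    rfl
  -- the even terms
  have h4 : ∀ k : ℕ, ∑ j : Fin (r (2 * k)), g (2 * k) (α (2 * k) j) =
      Nat.card {t // c t = k} • meromorphicOrderAt Λ ((i - k : ℤ) : ℂ) := by
    intro k
    rw [← card_eigen_coh hA hdual hspan hφ k (e (2 * k)) (α (2 * k)) (he (2 * k)),
      Nat.card_eq_fintype_card, Fintype.card_subtype, ← Finset.sum_const]
    rw [Finset.sum_filter]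
    refine Finset.sum_congr rfl fun j _ => ?_
    by_cases h : α (2 * k) j = ((q ^ s : ℕ) : ℂ) ^ k
    · rw [if_pos h, h]
      change (sgn (2 * k) : WithTop ℤ) *
        meromorphicOrderAt Λ ((i : ℂ) - u (((q ^ s : ℕ) : ℂ) ^ k)) = _
      have h8 : sgn (2 * k) = 1 := by
        unfold sgn
        rw [pow_mul]
        norm_num
      rw [hu2, h8, WithTop.coe_one, one_mul]
      push_cast
      rfl
    · rw [if_neg h]
      by_contra hcon
      obtain ⟨l, h5, h6⟩ := hg _ _ hcon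
      have h7 : l = k := by omega
      rw [h7] at h6
      exact h h6
  have h5 : ∀ a, (¬ ∃ k, a = 2 * k) → ∑ j : Fin (r a), g a (α a j) = 0 := by
    intro a ha
    refine Finset.sum_eq_zero fun j _ => ?_
    by_contra hcon
    obtain ⟨k, h6, -⟩ := hg _ _ hcon
    exact ha ⟨k, h6⟩
  have h6 : ∑ a ∈ Finset.range (2 * A.dim + 1), ∑ j : Fin (r a), g a (α a j) =
      ∑ k ∈ Finset.range (A.dim + 1), ∑ j : Fin (r (2 * k)), g (2 * k) (α (2 * k) j) := by
    have hinj : Set.InjOn (fun k : ℕ => 2 * k) (Finset.range (A.dim + 1)) := by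
      intro x _ y _ h
      have h' : 2 * x = 2 * y := h
      omega
    rw [← Finset.sum_image (s := Finset.range (A.dim + 1)) (g := fun k => 2 * k)
      (f := fun a => ∑ j : Fin (r a), g a (α a j)) hinj]
    symm
    refine Finset.sum_subset ?_ ?_
    · intro a ha
      obtain ⟨k, hk, rfl⟩ := Finset.mem_image.1 ha
      rw [Finset.mem_range] at hk ⊢
      omega
    · intro a ha hna
      refine h5 a fun ⟨k, hk⟩ => hna ?_
      rw [Finset.mem_image]
      refine ⟨k, ?_, hk.symm⟩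
      rw [Finset.mem_range] at ha ⊢
      omega
  rw [h3, h6]
  simp only [h4]
  rw [← Finset.sum_fiberwise_of_maps_to (s := Finset.univ) (t := Finset.range (A.dim + 1))
    (g := c) (fun t _ => by
      rw [Finset.mem_range]
      have := hdual.le t
      omega)]
  refine Finset.sum_congr rfl fun k _ => ?_
  rw [Nat.card_eq_fintype_card, Fintype.card_subtype, ← Finset.sum_const]
  refine Finset.sum_congr rfl fun t ht => ?_
  rw [(Finset.mem_filter.1 ht).2]


end

/-- The expansion of the elements of motivic cohomology. -/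
theorem expands_all {p : ℕ} {Ω : Finset ℂ} {q : ℕ}
    {Λ₀ : Type} [Field Λ₀] [CharZero Λ₀] {A : AbelianData Λ₀} {s : ℕ} {J : Type} [Fintype J]
    {D E : J → A.CH}
    (hmain : ∀ T : RelData A, IsRel (q ^ s) T → ∀ (j : ℤ) (χ : ℚ[X]), χ ≠ 0 →
        (∀ ρ : ℂ, aeval ρ χ = 0 → From p Ω ρ) → ∀ (V : Submodule ℚ T.M) (N : ℕ),
        (∀ m ∈ V, T.act A.frob m ∈ V) →
        (∀ m ∈ V, aeval (T.act A.frob) ((rev χ (((q ^ s : ℕ) : ℚ) ^ j)) ^ N) m = 0) →
        ∀ m ∈ V, m = ∑ t, T.times (D t) (T.pair (E t) m))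
    {T : RelData A} (hT : IsRel (q ^ s) T) (hpure : T.IsPure (q ^ s))
    (hK : ∀ i j : ℤ, ∃ χ : ℚ[X], χ ≠ 0 ∧ (∀ ρ : ℂ, aeval ρ χ = 0 → From p Ω ρ) ∧
      ∀ m, T.DegM i j m → aeval T.frobM χ m = 0)
    (i j : ℤ) (m : T.M) (hm : T.DegM i j m) : m = ∑ t, T.times (D t) (T.pair (E t) m) := by
  have hm' : T.InvM (q ^ s) i j m := hpure i j m hm
  obtain ⟨χ, hχ, hrank, hkill⟩ := hK i j
  have hkill' : ∀ m ∈ invSub T (q ^ s) i j, aeval T.frobM χ m = 0 := fun m hm => hkill m hm.1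
  have hV1 : ∀ m ∈ invSub T (q ^ s) i j, T.frobM m ∈ invSub T (q ^ s) i j :=
    fun m hm => inv_frob hT hm
  have hV2 : ∀ m ∈ invSub T (q ^ s) i j, T.act A.frob (T.frobM m) =
      ((q ^ s : ℕ) : ℚ) ^ j • m := fun m hm => hm.2
  have hV : ∀ m ∈ invSub T (q ^ s) i j, T.act A.frob m ∈ invSub T (q ^ s) i j := fun m hm =>
    stable_of _ T.frobM _ _ hV1 hV2 χ
      (coeff_zero_ne' (not_from_zero p Ω) hrank) hkill' hm
  exact hmain T hT j χ hχ hrank (invSub T (q ^ s) i j) 1 hV (fun m hm => by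
    rw [pow_one]
    exact aeval_rev_op _ T.frobM _ _ hV1 hV2 χ hkill' hm) m hm'

section

variable {I : Type} {p : ℕ} {Ω : Finset ℂ} {q : ℕ} (hq : 1 < q) {f : I → ℤ[X]}
  (hR : NoRel f q (From p Ω))

include hq hR in
/-- **The conjecture of Bloch and Soulé for products.** -/
theorem souleTimes : SouleTimes p Ω q f := by
  classical
  intro A s hA
  obtain ⟨J, hJ, c, D, E, hF, hdual, hQ, hspan, hmain⟩ := exists_core2 hq hR hA
  refine ⟨J, hJ, c, D, hF, fun φ hφ T U X d hX hY hU => ?_⟩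
  have hexp := expands_all hmain hY.rel hY.pure hU.motivic
  obtain ⟨Λ, hΛ, h2⟩ := hU.zeta
  obtain ⟨Λ', hΛ', hord'⟩ := zeta_order hq hR hA hdual hspan hφ hX hΛ h2
  have hord : ∀ r : ℤ, meromorphicOrderAt Λ' ((A.dim + d - r : ℤ) : ℂ) =
      ∑ t, meromorphicOrderAt Λ ((d - (r - c t) : ℤ) : ℂ) := by
    intro r
    rw [hord', sum_symm hA hdual hspan
      (fun k => meromorphicOrderAt Λ ((A.dim + d - r - k : ℤ) : ℂ))]
    refine Finset.sum_congr rfl fun t _ => ?_
    have h3 : ((A.dim - c t : ℕ) : ℤ) = (A.dim : ℤ) - c t := by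
      have := hdual.le t
      omega
    rw [h3]
    congr 2
    ring
  have hequiv : ∀ (r : ℤ) (i : ℕ), Nonempty ((∀ t, T.grN (2 * (r - c t) - i) (r - c t)) ≃ₗ[ℚ]
      T.grM (2 * r - i) r) := by
    intro r i
    exact exists_equiv_deg hY.rel hdual (2 * r - i) r (fun m hm => hexp _ _ m hm)
      (fun t => 2 * (r - c t) - i) fun t => by ring
  refine ⟨fun r i m hm => ?_, ⟨Λ', hΛ'⟩, fun r Λ₁ Λ₁' h3 h4 => ?_, fun n => ?_⟩
  · refine ⟨fun t => T.pair (E t) m, ⟨fun t => ?_, hexp _ _ m hm⟩, ?_⟩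
    · have h1 := hY.rel.pair_mem (c := c t) (by have := hdual.le t; omega) (hdual.right t) hm
      rw [show 2 * (r - (c t : ℤ)) - i = 2 * r - i - 2 * c t by ring]
      exact h1
    · rintro z ⟨-, hz⟩
      funext t
      rw [hz]
      exact (pair_sum hY.rel hdual t z).symm
  · rw [order_unique h3 hΛ', hord]
    exact Finset.sum_congr rfl fun t _ => order_unique hΛ h4 _
  · -- the reformulations
    let o : ℤ → WithTop ℤ := fun r => meromorphicOrderAt Λ ((d - r : ℤ) : ℂ)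
    let F : ℤ → Prop := fun r => (∀ i : ℕ, Module.Finite ℚ (T.grN (2 * r - i) r)) ∧
      {i : ℕ | T.grN (2 * r - i) r ≠ ⊥}.Finite
    let χ : ℤ → ℤ := fun r => -(∑ᶠ i : ℕ, (-1) ^ i * (finrank ℚ (T.grN (2 * r - i) r) : ℤ))
    have hN : ∀ r, SouleN T U (q ^ s) d r ↔ F r ∧ o r = (χ r : WithTop ℤ) := by
      intro r
      constructor
      · rintro ⟨h, h'⟩
        exact ⟨h, h' _ hΛ⟩
      · rintro ⟨h3, h4⟩
        exact ⟨h3, fun Λ₁ h5 => by rw [order_unique h5 hΛ]; exact h4⟩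
    -- the groups of the product
    have hbot : ∀ (r : ℤ) (i : ℕ), T.grM (2 * r - i) r = ⊥ ↔
        ∀ t, T.grN (2 * (r - c t) - i) (r - c t) = ⊥ := by
      intro r i
      obtain ⟨e⟩ := hequiv r i
      have h3 := subsingleton_pi_iff e
      rw [Submodule.subsingleton_iff_eq_bot] at h3
      rw [h3]
      exact forall_congr' fun t => Submodule.subsingleton_iff_eq_bot
    have hFM : ∀ r : ℤ, ((∀ i : ℕ, Module.Finite ℚ (T.grM (2 * r - i) r)) ∧
        {i : ℕ | T.grM (2 * r - i) r ≠ ⊥}.Finite) ↔ ∀ t, F (r - c t) := by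
      intro r
      constructor
      · rintro ⟨h3, h4⟩ t
        refine ⟨fun i => ?_, h4.subset fun i hi => ?_⟩
        · obtain ⟨e⟩ := hequiv r i
          exact (finite_pi_iff e).1.1 (h3 i) t
        · intro h5
          exact hi ((hbot r i).1 h5 t)
      · intro h3
        refine ⟨fun i => ?_, ?_⟩
        · obtain ⟨e⟩ := hequiv r i
          exact (finite_pi_iff e).1.2 fun t => (h3 t).1 i
        · refine (Set.finite_iUnion fun t => (h3 t).2).subset fun i hi => ?_
          by_contra hcon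
          apply hi
          rw [hbot]
          intro t
          by_contra h5
          exact hcon (Set.mem_iUnion.2 ⟨t, h5⟩)
    have hχM : ∀ r : ℤ, (∀ t, F (r - c t)) →
        -(∑ᶠ i : ℕ, (-1) ^ i * (finrank ℚ (T.grM (2 * r - i) r) : ℤ)) = ∑ t, χ (r - c t) := by
      intro r h3
      have h4 : ∀ i : ℕ, (-1) ^ i * (finrank ℚ (T.grM (2 * r - i) r) : ℤ) =
          ∑ t, (-1) ^ i * (finrank ℚ (T.grN (2 * (r - c t) - i) (r - c t)) : ℤ) := by
        intro i
        obtain ⟨e⟩ := hequiv r i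
        rw [(finite_pi_iff e).2 fun t => (h3 t).1 i, Nat.cast_sum, Finset.mul_sum]
      simp only [h4]
      rw [finsum_sum_comm, ← Finset.sum_neg_distrib]
      intro t _
      refine (h3 t).2.subset fun i hi => ?_
      intro h5
      apply hi
      change (-1) ^ i * (finrank ℚ (T.grN (2 * (r - c t) - i) (r - c t)) : ℤ) = 0
      rw [h5, finrank_bot, Nat.cast_zero, mul_zero]
    have hM : ∀ r, SouleM T X (q ^ s) d r ↔ (∀ t, F (r - c t)) ∧
        ∑ t, o (r - c t) = ((∑ t, χ (r - c t) : ℤ) : WithTop ℤ) := by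
      intro r
      constructor
      · rintro ⟨h, h'⟩
        have h3 := (hFM r).1 h
        refine ⟨h3, ?_⟩
        rw [← hχM r h3, ← h' _ hΛ', hord]
      · rintro ⟨h3, h4⟩
        refine ⟨(hFM r).2 h3, fun Λ₁ h5 => ?_⟩
        rw [order_unique h5 hΛ', hord, hχM r h3]
        exact h4
    have hneg : ∀ r < 0, F r ∧ o r = (χ r : WithTop ℤ) := by
      intro r hr
      have h3 : ∀ i : ℕ, T.grN (2 * r - i) r = ⊥ := by
        intro i
        rw [Submodule.eq_bot_iff]
        intro x hx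
        exact hY.neg _ _ hr x hx
      refine ⟨⟨fun i => ?_, ?_⟩, ?_⟩
      · rw [h3]
        infer_instance
      · simp only [h3, ne_eq, not_true_eq_false, Set.setOf_false, Set.finite_empty]
      · have h4 : χ r = 0 := by
          change -(∑ᶠ i : ℕ, (-1) ^ i * (finrank ℚ (T.grN (2 * r - i) r) : ℤ)) = 0
          have h5 : ∀ i : ℕ, (-1) ^ i * (finrank ℚ (T.grN (2 * r - i) r) : ℤ) = 0 := fun i => by
            rw [h3, finrank_bot, Nat.cast_zero, mul_zero]
          simp only [h5, finsum_zero, neg_zero]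
        rw [h4]
        refine hY.edge Λ hΛ _ ?_
        rw [Complex.intCast_re]
        have : (d : ℤ) < d - r := by omega
        exact_mod_cast this
    have h0 : ∃ t, c t = 0 := hF.exists_eq 0 (Nat.zero_le _)
    have htri := triangularZ c h0 F o χ hneg n
    constructor
    · intro h r hr
      exact (hN r).2 (htri.1 (fun r hr => (hM r).1 (h r hr)) r hr)
    · intro h r hr
      exact (hM r).2 (htri.2 (fun r hr => (hN r).1 (h r hr)) r hr)

end

end Pool.Agent.V1168.EV
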