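import Mathlib
import Pool.Agent.V1168.EV.Base
import Pool.Agent.V1168.EV.IntDefs
import Pool.Agent.V1168.BB.Int

/-!
# Finite generation of Weil-étale motivic cohomology of products with all varieties
-/

set_option autoImplicit false
set_option linter.unusedSectionVars false
set_option linter.unusedVariables false

namespace Pool.Agent.V1168.EV

open Module Polynomial Pool.Agent.Y156.L Pool.Agent.W484.HS Pool.Agent.Y1.CT Pool.Agent.V1168.UN
  Pool.Agent.V1168.BB

section

variable {I : Type} {p : ℕ} {Ω : Finset ℂ} {q : ℕ} {f : I → ℤ[X]}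

/-- **Finite generation for products.** -/
theorem fgEquiv (hq : 1 < q) (hR : NoRel f q (From p Ω)) {Λ : Type} [Field Λ] [CharZero Λ]
    {A : AbelianData Λ} {s : ℕ} (hA : IsAbelian A q s f) {Z : IntegralData A} {T : IntTheory Z}
    (hT : IsIntTheory T (q ^ s)) (hK : IntFrom T p Ω) : FGEquiv T := by
  classical
  obtain ⟨J, hJ, c, D, E, hF, hdual, hQ, hmain⟩ := exists_core3 hq hR hA
  obtain ⟨N₀, D', E', hN₀, hcD, hcE, hD, hE⟩ := exists_lifts hT.data hdual
  have hG := hT.graded
  have hAc := hT.action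
  intro i j
  rcases lt_or_ge j 0 with hj | hj
  · have h1 : FGM T i j := by
      unfold FGM
      rw [(hT.finite.neg hj).2]
      exact fg_bot'
    refine ⟨fun _ k _ => ?_, fun _ => h1⟩
    unfold FGN
    rw [(hT.finite.neg (i := i - 2 * k) (j := j - k) (by omega)).1]
    exact fg_bot'
  obtain ⟨n, rfl⟩ := Int.eq_ofNat_of_zero_le hj
  obtain ⟨χ, hχ, hroot, hkill⟩ := hK i n
  -- the polynomials
  obtain ⟨P, hP, hPk⟩ := hmain n (χ.map (Int.castRingHom ℚ)) (by
    rw [Ne, Polynomial.map_eq_zero_iff (RingHom.injective_int _)]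
    exact hχ) (fun ρ hρ => hroot ρ (by
      rw [aeval_def, eval₂_map] at hρ
      rw [aeval_def, ← hρ]
      rfl))
  have hμ : (((q ^ s : ℕ) : ℚ)) ^ (n : ℤ) = (((((q ^ s : ℕ) : ℤ) ^ n : ℤ)) : ℚ) := by
    push_cast
    rw [zpow_natCast]
  rw [hμ, ← map_revZ] at hP
  have hrel : ∀ m ∈ T.grM i n, aeval (actZ T Z.frobZ) (revZ χ (((q ^ s : ℕ) : ℤ) ^ n)) m = 0 := by
    intro m hm
    refine aeval_revZ_op (actZ T Z.frobZ) (frobL T) (T.grM i n) _ (fun m hm => hG.FM_mem hm)
      (fun m hm => ?_) χ (fun m hm => ?_) hm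
    · have h1 : T.act Z.frobZ (T.frobM m) = (q ^ s) ^ n • m := hAc.pure hm
      rw [actZ_apply, frobL_apply, h1, ← natCast_zsmul]
      push_cast
      rfl
    · rw [aeval_frobL]
      exact hkill m hm
  obtain ⟨B, b, hB, hBb⟩ := int_core hA hT.data hG hAc hdual hN₀ hcD hcE hD hE P _ hP hPk
    (T.grM i n) (fun m hm => hG.app_mem hm) hrel
  constructor
  · intro h k hk
    rw [fgM_iff] at h
    rw [fgN_iff]
    obtain ⟨t, rfl⟩ := hF.exists_eq k hk
    have hmem : ∀ x : T.grN (i - 2 * c t) (n - c t), T.times (D' t) (x : T.N) ∈ T.grM i n := by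
      intro x
      have h1 := hG.mul_mem (hcD t) x.2
      rw [show i - 2 * (c t : ℤ) + 2 * c t = i by ring, sub_add_cancel] at h1
      exact h1
    let φ : T.grN (i - 2 * c t) (n - c t) →+ T.grM i n :=
      ((T.times (D' t)).comp (AddSubgroup.subtype _)).codRestrict _ hmem
    refine fg_of_map φ ?_
    have hfin := (hT.finite.finiteN (i - 2 * c t) (n - c t) (N₀ ^ 2) (pow_ne_zero _ hN₀)).to_subtype
    refine Finite.of_injective (β := {x | x ∈ T.grN (i - 2 * c t) (n - c t) ∧ (N₀ ^ 2) • x = 0})
      (fun x => ⟨((x : T.grN (i - 2 * c t) (n - c t)) : T.N), x.1.2, ?_⟩) ?_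
    · have h1 : T.times (D' t) ((x : T.grN (i - 2 * c t) (n - c t)) : T.N) = 0 :=
        congrArg Subtype.val x.2
      have h2 := pair_times_int hT.data hG hdual hD hE t t
        ((x : T.grN (i - 2 * c t) (n - c t)) : T.N)
      rw [h1, map_zero, if_pos rfl] at h2
      exact h2.symm
    · intro x y hxy
      have hxy' := congrArg Subtype.val hxy
      exact Subtype.ext (Subtype.ext hxy')
  · intro h
    rw [fgM_iff]
    have hfinN : ∀ t, Module.Finite ℤ (T.grN (i - 2 * c t) (n - c t)) :=
      fun t => fgN_iff.1 (h (c t) (hdual.le t))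
    have hmem : ∀ (t : J) (x : T.grM i n),
        T.pair (E' t) (x : T.M) ∈ T.grN (i - 2 * c t) (n - c t) := by
      intro t x
      exact hG.push_mem (by have := hdual.le t; omega) (hcE t) x.2
    let φ : T.grM i n →+ ∀ t, T.grN (i - 2 * c t) (n - c t) :=
      { toFun := fun x t => ⟨T.pair (E' t) x, hmem t x⟩
        map_zero' := by
          funext t
          apply Subtype.ext
          exact map_zero _
        map_add' := by
          intro x y
          funext t
          apply Subtype.ext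
          exact map_add _ _ _ }
    refine fg_of_map φ ?_
    have hB' : B.natAbs ≠ 0 := Int.natAbs_ne_zero.2 hB
    have hfin := (hT.finite.finiteM i n B.natAbs hB').to_subtype
    refine Finite.of_injective (β := {x | x ∈ T.grM i n ∧ B.natAbs • x = 0})
      (fun x => ⟨((x : T.grM i n) : T.M), x.1.2, ?_⟩) ?_
    · have h1 : ∀ t, T.pair (E' t) ((x : T.grM i n) : T.M) = 0 := fun t =>
        congrArg Subtype.val (congrFun (x.2 : φ (x : T.grM i n) = 0) t)
      have h2 := hBb _ (x : T.grM i n).2
      simp only [h1, map_zero, Finset.sum_const_zero, smul_zero] at h2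
      rcases Int.natAbs_eq B with hB2 | hB2
      · rw [hB2, natCast_zsmul] at h2
        exact h2
      · rw [hB2, neg_smul, natCast_zsmul, neg_eq_zero] at h2
        exact h2
    · intro x y hxy
      have hxy' := congrArg Subtype.val hxy
      exact Subtype.ext (Subtype.ext hxy')

theorem weilEtaleTimes (hq : 1 < q) (hR : NoRel f q (From p Ω)) : WeilEtaleTimes p Ω q f := by
  intro Λ _ _ A s hA Z T hT hK
  have h := fgEquiv hq hR hA hT hK
  exact ⟨h, lEquiv hT.finite h⟩

end

end Pool.Agent.V1168.EV
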